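import Pool.Agent.TH874.QPS.Fwd
import Pool.Agent.H40.BP.WEI1

/-!
# General parameters
-/

set_option autoImplicit false

open Polynomial

noncomputable section

namespace Pool.Agent.TH874.QPS

open BQ Pool.Agent.H40.BP IsLocalRing

/-- change of variables -/
theorem anPatch_shift {A A' R : Type} [CommRing A] [CommRing A'] [CommRing R] (ι : A →+* R) (g : A)
    (h : AnPatch ι g) (σ : A' ≃+* A) : AnPatch (ι.comp (σ : A' →+* A)) (σ.symm g) := by
  have e1 : (ι.comp (σ : A' →+* A)) (σ.symm g) = ι g := by
    show ι (σ (σ.symm g)) = ι g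
    rw [σ.apply_symm_apply]
  refine ⟨?_, ?_, ?_, ?_⟩
  · intro a b hab
    exact σ.injective (h.inj hab)
  · intro r hr
    rw [e1] at hr
    exact h.reg r hr
  · intro r
    obtain ⟨a, c, hac⟩ := h.surj r
    refine ⟨σ.symm a, c, ?_⟩
    rw [e1]
    show r = ι (σ (σ.symm a)) + _
    rw [σ.apply_symm_apply]
    exact hac
  · intro a c hac
    rw [e1] at hac
    obtain ⟨a', ha'⟩ := h.sat (σ a) c hac
    refine ⟨σ.symm a', ?_⟩
    apply σ.injective
    rw [map_mul, σ.apply_symm_apply, σ.apply_symm_apply]
    exact ha'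

variable (B : Type) [CommRing B]

/-- Quillen's question for `B[[X]]` and a parameter `r = (X - b) v` -/
theorem fwd_gen [IsDomain B] [IsLocalRing B] [IsAdicComplete (maximalIdeal B) B]
    (hB : IdemFree B[X]) (r : PowerSeries B) (hr0 : PowerSeries.constantCoeff r ∈ maximalIdeal B)
    (hr1 : IsUnit (PowerSeries.coeff 1 r)) : IdemFree (Localization.Away r) := by
  intro n E hE
  obtain ⟨b, hb, v, hv, hrv⟩ := t_WEI1 B r hr0 hr1
  let π : PowerSeries B →+* PowerSeries (ResidueField B) := PowerSeries.map (residue B)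
  let p : Ideal (PowerSeries B) := RingHom.ker π
  have hp : p.IsPrime := RingHom.ker_isPrime π
  have hrne : r ≠ 0 := by
    intro h0
    rw [h0, map_zero] at hr1
    exact not_isUnit_zero hr1
  have hX : r ∉ p := by
    intro h
    have h1 : π r = 0 := h
    have h2 := congrArg (PowerSeries.coeff 1) h1
    rw [PowerSeries.coeff_map, map_zero, residue_eq_zero_iff] at h2
    exact (mem_nonunits_iff.1 ((mem_maximalIdeal _).1 h2)) hr1
  have hrinj : Function.Injective (algebraMap (PowerSeries B) (Localization.Away r)) :=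
    IsLocalization.injective _ (powers_le_nonZeroDivisors_of_noZeroDivisors hrne)
  have hru : IsUnit (algebraMap (PowerSeries B) (Localization.Away r) r) :=
    IsLocalization.Away.algebraMap_isUnit r
  have hrsurj : ∀ z : Localization.Away r, ∃ (k : ℕ) (s : PowerSeries B),
      algebraMap (PowerSeries B) (Localization.Away r) r ^ k * z =
        algebraMap (PowerSeries B) (Localization.Away r) s := by
    intro z
    obtain ⟨⟨s, t⟩, hst⟩ := IsLocalization.surj (Submonoid.powers r) z
    obtain ⟨k, hk⟩ := t.2
    have hk' : r ^ k = t := hk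
    refine ⟨k, s, ?_⟩
    rw [← map_pow, hk', mul_comm]
    exact hst
  have hXu : IsUnit (algebraMap (PowerSeries B) (Localization.AtPrime p) r) :=
    IsLocalization.map_units (Localization.AtPrime p) (⟨r, hX⟩ : p.primeCompl)
  let a : Localization.Away r →+* Localization.AtPrime p := IsLocalization.Away.lift r hXu
  have ha : ∀ s, a (algebraMap (PowerSeries B) (Localization.Away r) s) =
      algebraMap (PowerSeries B) (Localization.AtPrime p) s := fun s =>
    IsLocalization.Away.lift_eq _ _ _
  have hLinj : Function.Injective (algebraMap (PowerSeries B) (Localization.AtPrime p)) :=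
    IsLocalization.injective _ p.primeCompl_le_nonZeroDivisors
  have hainj : Function.Injective a := by
    rw [injective_iff_map_eq_zero]
    intro z hz
    obtain ⟨k, s, hs⟩ := hrsurj z
    have h1 : algebraMap (PowerSeries B) (Localization.AtPrime p) s = 0 := by
      rw [← ha, ← hs, map_mul, hz, mul_zero]
    have h2 : s = 0 := hLinj (by rw [h1, map_zero])
    rw [h2, map_zero] at hs
    exact ((hru.pow k).mul_right_eq_zero).1 hs
  obtain ⟨s, U, V, h1, h2⟩ := idemFree_local (Localization.AtPrime p) n (E.map a)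
    (by rw [← Matrix.map_mul, hE])
  obtain ⟨c, hc, U', V', h3, h4⟩ := clear_split a hainj
    (p.primeCompl.map (algebraMap (PowerSeries B) (Localization.Away r))) (by
      intro z
      obtain ⟨⟨s, t⟩, hst⟩ := IsLocalization.surj p.primeCompl z
      refine ⟨_, ⟨t.1, t.2, rfl⟩, algebraMap (PowerSeries B) (Localization.Away r) s, ?_⟩
      rw [ha, ha, mul_comm]
      exact hst) E U V h1 h2
  obtain ⟨f, hf, rfl⟩ := hc
  obtain ⟨k, hk⟩ : ∃ k, IsUnit (PowerSeries.coeff k f) := by
    by_contra hcon
    push Not at hcon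
    apply hf
    show π f = 0
    ext k
    rw [PowerSeries.coeff_map, map_zero, residue_eq_zero_iff, mem_maximalIdeal, mem_nonunits_iff]
    exact hcon k
  obtain ⟨g, u, hu, hfg, hg, -, hpat⟩ := t_WEI B f ⟨k, hk⟩
  -- the change of variables
  let σ : B[X] ≃+* B[X] := (Polynomial.algEquivAevalXAddC (-b)).toRingEquiv
  have hσX : σ X = X - C b := by
    show Polynomial.aeval (X + C (-b)) (X : B[X]) = _
    rw [Polynomial.aeval_X, map_neg, sub_eq_add_neg]
  let ι : B[X] →+* PowerSeries B :=
    (Polynomial.coeToPowerSeries.ringHom : B[X] →+* PowerSeries B).comp (σ : B[X] →+* B[X])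
  have hιX : r = ι X * v := by
    rw [hrv]
    congr 1
    show _ = Polynomial.coeToPowerSeries.ringHom (σ X)
    rw [hσX, Polynomial.coeToPowerSeries.ringHom_apply, Polynomial.coe_sub, Polynomial.coe_X,
      Polynomial.coe_C]
  have hιu : IsUnit (((algebraMap (PowerSeries B) (Localization.Away r)).comp ι) X) := by
    rw [RingHom.comp_apply]
    have h8 : IsUnit (algebraMap (PowerSeries B) (Localization.Away r) (ι X) *
        algebraMap (PowerSeries B) (Localization.Away r) v) := by
      rw [← map_mul, ← hιX]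
      exact hru
    exact isUnit_of_mul_isUnit_left h8
  let lr : LaurentPolynomial B →+* Localization.Away r :=
    IsLocalization.Away.lift (S := LaurentPolynomial B) (X : B[X]) hιu
  have hlr : ∀ q : B[X], lr (Polynomial.toLaurent q) =
      algebraMap (PowerSeries B) (Localization.Away r) (ι q) := by
    intro q
    show IsLocalization.Away.lift (S := LaurentPolynomial B) (X : B[X]) hιu _ = _
    rw [← LaurentPolynomial.algebraMap_eq_toLaurent, IsLocalization.Away.lift_eq]
    rfl
  set h := σ.symm g with hh
  have hmon : h.Monic := by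
    have h9 : h = g.comp (X + C b) := by
      show (Polynomial.algEquivAevalXAddC (-b)).symm g = _
      rw [Polynomial.algEquivAevalXAddC_symm, neg_neg]
      rfl
    rw [h9]
    exact hg.comp_X_add_C b
  have hpat' : AnPatch lr (Polynomial.toLaurent h) := by
    refine anPatch_loc ι h (Polynomial.toLaurent : B[X] →+* LaurentPolynomial B)
      (algebraMap (PowerSeries B) (Localization.Away r)) lr (Submonoid.powers X)
      (anPatch_shift _ g hpat σ) Polynomial.toLaurent_injective hrinj hlr ?_ ?_ ?_
    · rintro s ⟨k, rfl⟩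
      simp only [Polynomial.toLaurent_X_pow]
      exact LaurentPolynomial.isUnit_T _
    · intro z
      obtain ⟨k, a, ha⟩ := LaurentPolynomial.exists_T_pow z
      refine ⟨X ^ k, ⟨k, rfl⟩, a, ?_⟩
      rw [Polynomial.toLaurent_X_pow, ha, mul_comm]
    · intro z
      obtain ⟨k, s, hs⟩ := hrsurj z
      obtain ⟨w, hw⟩ := (hv.pow k)
      refine ⟨X ^ k, ⟨k, rfl⟩, ((w⁻¹ : (PowerSeries B)ˣ) : PowerSeries B) * s, ?_⟩
      have e9 : ι (X ^ k) = ((w⁻¹ : (PowerSeries B)ˣ) : PowerSeries B) * r ^ k := by
        have e10 : r ^ k = ι (X ^ k) * w := by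
          rw [hw, map_pow, ← mul_pow, ← hιX]
        rw [e10, mul_comm, mul_assoc, Units.mul_inv, mul_one]
      rw [e9, map_mul, map_mul, ← hs, map_pow, mul_assoc]
  have h5 : SplitAt (lr (Polynomial.toLaurent h)) E := by
    apply SplitAt.of_mul (u := algebraMap (PowerSeries B) (Localization.Away r) u) (hu.map _)
    rw [hlr, ← map_mul]
    have h6 : f = Polynomial.coeToPowerSeries.ringHom g * u := hfg
    have h7 : ι h = Polynomial.coeToPowerSeries.ringHom g := by
      show Polynomial.coeToPowerSeries.ringHom (σ (σ.symm g)) = _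
      rw [σ.apply_symm_apply]
    rw [h7, ← h6]
    exact ⟨s, U', V', h3, h4⟩
  obtain ⟨n', E', hE', ⟨N, hN⟩, himp⟩ := t_PATCH _ _ _ _ hpat' n E hE h5
  exact himp (split_laurent hB h hmon N E' hE' hN)

end Pool.Agent.TH874.QPS
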