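import Pool.Agent.TH874.QPS.Bwd
import Pool.Agent.TH874.QPS.Gen

/-!
# From Quillen's question for `(B[[X]], r)` to Bass-Quillen in one variable
-/

set_option autoImplicit false

open Polynomial

noncomputable section

namespace Pool.Agent.TH874.QPS

open BQ Pool.Agent.H40.BP IsLocalRing

theorem anPatch_dist {B : Type} [CommRing B] [IsLocalRing B] [IsAdicComplete (maximalIdeal B) B]
    (g : B[X]) (hg : g.IsDistinguishedAt (maximalIdeal B)) :
    AnPatch (Polynomial.coeToPowerSeries.ringHom : B[X] →+* PowerSeries B) g := by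
  have hd := WEI.degree_eq hg
  have hW := hg.isWeierstrassDivisorAt'
  refine ⟨fun a b h => Polynomial.coe_injective B h, fun r hr => ?_, fun r => ?_, fun a c hac => ?_⟩
  · refine (hW.eq_zero_of_mul_eq (q := r) (r := 0) ?_ ?_).1
    · rw [Polynomial.degree_zero]
      exact WithBot.bot_lt_coe _
    · rw [Polynomial.coe_zero]
      exact hr
  · have h1 := (hW.isWeierstrassDivisionAt_div_mod r).2
    refine ⟨hW.mod r, hW.div r, ?_⟩
    rw [add_comm]
    exact h1
  · have h1 : a = g * (a /ₘ g) + a %ₘ g := by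
      rw [add_comm]
      exact (Polynomial.modByMonic_add_div a g).symm
    have h2 : (g : PowerSeries B) * (c - ((a /ₘ g : B[X]) : PowerSeries B)) =
        ((a %ₘ g : B[X]) : PowerSeries B) := by
      have h3 : (a : PowerSeries B) = (g : PowerSeries B) * ((a /ₘ g : B[X]) : PowerSeries B) +
          ((a %ₘ g : B[X]) : PowerSeries B) := by
        rw [← Polynomial.coe_mul, ← Polynomial.coe_add, ← h1]
      have h4 : (a : PowerSeries B) = (g : PowerSeries B) * c := hac
      rw [mul_sub, ← h4, h3]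
      ring
    have h5 := (hW.eq_zero_of_mul_eq (q := c - ((a /ₘ g : B[X]) : PowerSeries B))
      (r := a %ₘ g) ?_ h2).2
    · refine ⟨a /ₘ g, ?_⟩
      rw [h5, add_zero] at h1
      exact h1
    · rw [← hd]
      exact Polynomial.degree_modByMonic_lt a hg.monic

theorem anPatch_pow {A R : Type} [CommRing A] [CommRing R] (ι : A →+* R) (g : A)
    (h : AnPatch ι g) (N : ℕ) : AnPatch ι (g ^ N) := by
  induction N with
  | zero =>
    rw [pow_zero]
    exact ⟨h.inj, fun r hr => by rwa [map_one, one_mul] at hr, fun r => ⟨0, r, by simp⟩,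
      fun a c _ => ⟨a, by rw [one_mul]⟩⟩
  | succ N ih =>
    refine ⟨h.inj, ?_, ?_, ?_⟩
    · intro r hr
      rw [pow_succ, map_mul, mul_assoc] at hr
      exact h.reg _ (ih.reg _ hr)
    · intro r
      obtain ⟨a, c, rfl⟩ := ih.surj r
      obtain ⟨a', c', rfl⟩ := h.surj c
      refine ⟨a + g ^ N * a', c', ?_⟩
      rw [pow_succ, map_add, map_mul, map_mul]
      ring
    · intro a c hac
      obtain ⟨a', rfl⟩ := ih.sat a (ι g * c) (by rw [hac, pow_succ, map_mul, mul_assoc])
      have h1 : ι (g ^ N) * (ι a' - ι g * c) = 0 := by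
        rw [map_mul, pow_succ, map_mul] at hac
        rw [mul_sub, hac]
        ring
      obtain ⟨a'', rfl⟩ := h.sat a' c (sub_eq_zero.1 (ih.reg _ h1))
      exact ⟨a'', by rw [pow_succ, mul_assoc]⟩

section gen

variable {B : Type} [CommRing B] {S : Type} [CommRing S] (ι : B[X] →+* S)
  (K : Type) [CommRing K] [Algebra S K] [IsLocalization.Away (ι X) K]

/-- the map `B[X,1/X] → K` -/
def lg : LaurentPolynomial B →+* K :=
  IsLocalization.Away.lift (S := LaurentPolynomial B) (X : B[X])
    (g := (algebraMap S K).comp ι) (IsLocalization.Away.algebraMap_isUnit (ι X))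

theorem lg_toLaurent (f : B[X]) : lg ι K (Polynomial.toLaurent f) = algebraMap S K (ι f) := by
  rw [lg, ← LaurentPolynomial.algebraMap_eq_toLaurent, IsLocalization.Away.lift_eq]
  rfl

theorem lg_T (k : ℕ) : lg ι K (LaurentPolynomial.T k) = algebraMap S K (ι X ^ k) := by
  rw [← Polynomial.toLaurent_X_pow, lg_toLaurent, map_pow]

theorem lg_surj (z : K) : ∃ (k : ℕ) (s : S),
    algebraMap S K (ι X ^ k) * z = algebraMap S K s := by
  obtain ⟨⟨s, t⟩, hst⟩ := IsLocalization.surj (Submonoid.powers (ι X)) z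
  obtain ⟨k, hk⟩ := t.2
  have hk' : (ι X) ^ k = t := hk
  refine ⟨k, s, ?_⟩
  rw [hk', mul_comm]
  exact hst

theorem approx_g (hι : AnPatch ι X) (z : K) (N : ℕ) : ∃ (b : LaurentPolynomial B) (c : S),
    z = lg ι K b + algebraMap S K (ι X ^ N * c) := by
  obtain ⟨k, s, hs⟩ := lg_surj ι K z
  have hu : IsUnit (algebraMap S K (ι X ^ k)) := by
    rw [map_pow]
    exact (IsLocalization.Away.algebraMap_isUnit (ι X)).pow k
  obtain ⟨a, c, hac⟩ := (anPatch_pow ι X hι (N + k)).surj s
  refine ⟨LaurentPolynomial.T (-(k : ℤ)) * Polynomial.toLaurent a, c, ?_⟩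
  apply hu.mul_left_cancel
  have h2 : algebraMap S K (ι X ^ k) * lg ι K (LaurentPolynomial.T (-(k : ℤ))) = 1 := by
    rw [← lg_T, ← map_mul, ← LaurentPolynomial.T_add, add_neg_cancel, LaurentPolynomial.T_zero,
      map_one]
  rw [hs, mul_add, map_mul (lg ι K), ← mul_assoc, h2, one_mul, lg_toLaurent, ← map_mul, ← map_add,
    hac]
  congr 1
  rw [map_pow, pow_add]
  ring

theorem algebraMap_inj_g [IsDomain S] (hι : AnPatch ι X) [Nontrivial B] :
    Function.Injective (algebraMap S K) := by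
  have h0 : ι X ≠ 0 := fun h => X_ne_zero (hι.inj (by rw [h, map_zero]))
  exact IsLocalization.injective K (powers_le_nonZeroDivisors_of_noZeroDivisors h0)

theorem lg_inj [IsDomain S] [Nontrivial B] (hι : AnPatch ι X) : Function.Injective (lg ι K) := by
  rw [injective_iff_map_eq_zero]
  intro z hz
  obtain ⟨k, a, ha⟩ := LaurentPolynomial.exists_T_pow z
  have h1 : algebraMap S K (ι a) = 0 := by
    rw [← lg_toLaurent, ha, map_mul, hz, zero_mul]
  have h2 : ι a = 0 := algebraMap_inj_g ι K hι (by rw [h1, map_zero])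
  have h3 : a = 0 := hι.inj (by rw [h2, map_zero])
  rw [h3, map_zero] at ha
  exact ((LaurentPolynomial.isUnit_T (R := B) (k : ℤ)).mul_left_eq_zero).1 ha.symm

theorem integral_of_lg [IsDomain S] [Nontrivial B] (hι : AnPatch ι X) (b : LaurentPolynomial B)
    (r : S) (h : lg ι K b = algebraMap S K r) :
    ∃ f : B[X], b = Polynomial.toLaurent f ∧ ι f = r := by
  obtain ⟨k, a, ha⟩ := LaurentPolynomial.exists_T_pow b
  have h1 : ι a = ι (X ^ k) * r := by
    apply algebraMap_inj_g ι K hι
    rw [map_mul, ← h, ← lg_toLaurent, ha, map_mul, lg_T, map_pow ι, mul_comm]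
  obtain ⟨f, rfl⟩ := (anPatch_pow ι X hι k).sat a r h1
  refine ⟨f, ?_, ?_⟩
  · have h5 : Polynomial.toLaurent f * LaurentPolynomial.T k = b * LaurentPolynomial.T k := by
      rw [← ha, map_mul, Polynomial.toLaurent_X_pow, mul_comm]
    exact (LaurentPolynomial.isUnit_T (R := B) (k : ℤ)).mul_right_cancel h5.symm
  · have h6 : ι (X ^ k) * (ι f - r) = 0 := by
      rw [mul_sub, ← h1, map_mul]
      ring
    exact sub_eq_zero.1 ((anPatch_pow ι X hι k).reg _ h6)

theorem approx_mat_g (hι : AnPatch ι X) {m n : ℕ} (M : Matrix (Fin m) (Fin n) K) (N : ℕ) :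
    ∃ (M' : Matrix (Fin m) (Fin n) (LaurentPolynomial B)) (Z : Matrix (Fin m) (Fin n) S),
      M = M'.map (lg ι K) + algebraMap S K (ι X ^ N) • Z.map (algebraMap S K) := by
  choose b c hbc using fun i j => approx_g ι K hι (M i j) N
  refine ⟨Matrix.of b, Matrix.of c, ?_⟩
  ext i j
  rw [Matrix.add_apply, Matrix.map_apply, Matrix.smul_apply, Matrix.map_apply, Matrix.of_apply,
    Matrix.of_apply, smul_eq_mul, ← map_mul]
  exact hbc i j

theorem integral_mat_g [IsDomain S] [Nontrivial B] (hι : AnPatch ι X) {m : ℕ}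
    (D : Matrix (Fin m) (Fin m) (LaurentPolynomial B)) (W Z : Matrix (Fin m) (Fin m) S)
    (hW : W = 1 + ι X • Z) (h : D.map (lg ι K) = W.map (algebraMap S K)) :
    ∃ D₁ : Matrix (Fin m) (Fin m) B[X], D = D₁.map Polynomial.toLaurent ∧
      D₁.map (evalRingHom (0 : B)) = 1 := by
  have h1 : ∀ i j, lg ι K (D i j) = algebraMap S K (W i j) := fun i j =>
    congrFun (congrFun h i) j
  choose f hf1 hf2 using fun i j => integral_of_lg ι K hι (D i j) (W i j) (h1 i j)
  refine ⟨Matrix.of f, ?_, ?_⟩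
  · ext1 i j
    rw [Matrix.map_apply, Matrix.of_apply]
    exact hf1 i j
  · ext1 i j
    rw [Matrix.map_apply, Matrix.of_apply]
    have h3 : ι (f i j - (1 : Matrix (Fin m) (Fin m) B[X]) i j) = ι X * Z i j := by
      rw [map_sub, hf2, hW, Matrix.add_apply, Matrix.smul_apply, smul_eq_mul]
      rcases eq_or_ne i j with rfl | hij
      · simp
      · simp [hij]
    obtain ⟨a', ha'⟩ := hι.sat _ _ h3
    have h4 : f i j = (1 : Matrix (Fin m) (Fin m) B[X]) i j + X * a' := by
      rw [← ha']
      ring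
    rw [h4, map_add, map_mul]
    rcases eq_or_ne i j with rfl | hij
    · simp
    · simp [hij]

/-- the main computation: splitting over `K` gives splitting up to a polynomial with
constant term one -/
theorem density_g [IsDomain S] [IsDomain B] (hι : AnPatch ι X) {n : ℕ}
    (E : Matrix (Fin n) (Fin n) (LaurentPolynomial B))
    (hE : E * E = E) (h : Split (E.map (lg ι K))) :
    ∃ f : B[X], f.coeff 0 = 1 ∧ SplitAt (Polynomial.toLaurent f) E := by
  obtain ⟨s, U, V, hUV, hVU⟩ := h
  obtain ⟨k₁, U₀, hU₀⟩ := clear_mat (ι X) U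
  obtain ⟨k₂, V₀, hV₀⟩ := clear_mat (ι X) V
  set ρ := algebraMap S K with hρ
  set N := k₁ + k₂ + 1 with hN
  obtain ⟨U', CU, hU'⟩ := approx_mat_g ι K hι U N
  obtain ⟨V', CV, hV'⟩ := approx_mat_g ι K hι V N
  set E₂ := E.map (lg ι K) with hE₂
  have hV : V * E₂ = V := by rw [← hUV, ← Matrix.mul_assoc, hVU, Matrix.one_mul]
  have hU : E₂ * U = U := by rw [← hUV, Matrix.mul_assoc, hVU, Matrix.mul_one]
  have hEE : E₂ = U * V := hUV.symm
  have hU'' : U'.map (lg ι K) = U - ρ (ι X ^ N) • CU.map ρ := by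
    rw [hU']
    exact (add_sub_cancel_right _ _).symm
  have hV'' : V'.map (lg ι K) = V - ρ (ι X ^ N) • CV.map ρ := by
    rw [hV']
    exact (add_sub_cancel_right _ _).symm
  set W : Matrix (Fin s) (Fin s) S :=
    1 - (ι X * ι X ^ k₂ : S) • (CV * U₀) - (ι X * ι X ^ k₁ : S) • (V₀ * CU) +
      (ι X * ι X ^ N : S) • (CV * U₀ * (V₀ * CU)) with hW
  have hWZ : W = 1 + ι X • ((ι X ^ N) • (CV * U₀ * (V₀ * CU)) - (ι X ^ k₂) • (CV * U₀) -
      (ι X ^ k₁) • (V₀ * CU)) := by
    rw [hW, smul_sub, smul_sub, smul_smul, smul_smul, smul_smul]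
    abel
  have hmain : (V' * E * U').map (lg ι K) = W.map ρ := by
    have e1 : (V' * E * U').map (lg ι K) = V'.map (lg ι K) * E₂ * U'.map (lg ι K) := by
      rw [Matrix.map_mul, Matrix.map_mul]
    rw [e1, hU'', hV'']
    have e2 : (V - ρ (ι X ^ N) • CV.map ρ) * E₂ * (U - ρ (ι X ^ N) • CU.map ρ) =
        1 - ρ (ι X ^ N) • (CV.map ρ * U) - ρ (ι X ^ N) • (V * CU.map ρ) +
          (ρ (ι X ^ N) * ρ (ι X ^ N)) • (CV.map ρ * U * (V * CU.map ρ)) := by
      rw [Matrix.sub_mul, hV, Matrix.sub_mul, Matrix.mul_sub, Matrix.mul_sub, hVU, Matrix.smul_mul,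
        Matrix.smul_mul, Matrix.mul_assoc (CV.map ρ) E₂ U, hU, Matrix.mul_smul, Matrix.smul_mul,
        Matrix.mul_smul, smul_smul, hEE]
      simp only [Matrix.mul_assoc]
      abel
    rw [e2]
    have e3 : ρ (ι X ^ N) • (CV.map ρ * U) = ((ι X * ι X ^ k₂ : S) • (CV * U₀)).map ρ := by
      rw [map_smul2, Matrix.map_mul, hU₀, Matrix.mul_smul, smul_smul, ← map_mul]
      congr 2
      rw [hN]
      ring
    have e4 : ρ (ι X ^ N) • (V * CU.map ρ) = ((ι X * ι X ^ k₁ : S) • (V₀ * CU)).map ρ := by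
      rw [map_smul2, Matrix.map_mul, hV₀, Matrix.smul_mul, smul_smul, ← map_mul]
      congr 2
      rw [hN]
      ring
    have e5 : (ρ (ι X ^ N) * ρ (ι X ^ N)) • (CV.map ρ * U * (V * CU.map ρ)) =
        ((ι X * ι X ^ N : S) • (CV * U₀ * (V₀ * CU))).map ρ := by
      rw [map_smul2, Matrix.map_mul, Matrix.map_mul, Matrix.map_mul, hU₀, hV₀]
      simp only [Matrix.mul_smul, Matrix.smul_mul, smul_smul, ← map_mul]
      congr 2
      rw [hN]
      ring
    have e6 : (1 : Matrix (Fin s) (Fin s) K) = (1 : Matrix (Fin s) (Fin s) S).map ρ :=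
      (Matrix.map_one ρ (map_zero ρ) (map_one ρ)).symm
    rw [e3, e4, e5, hW, e6]
    ext i j
    simp only [Matrix.map_apply, Matrix.add_apply, Matrix.sub_apply, map_add, map_sub]
  obtain ⟨D₁, hD₁, hD₀⟩ := integral_mat_g ι K hι _ W _ hWZ hmain
  refine ⟨D₁.det, ?_, ?_⟩
  · rw [Polynomial.coeff_zero_eq_eval_zero, ← coe_evalRingHom, RingHom.map_det]
    show (D₁.map (evalRingHom 0)).det = 1
    rw [hD₀, Matrix.det_one]
  · set D := V' * E * U' with hD
    have hdet : Polynomial.toLaurent D₁.det = D.det := by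
      rw [hD₁]
      exact RingHom.map_det Polynomial.toLaurent D₁
    rw [hdet]
    refine ⟨s, E * U' * D.adjugate, V' * E, ?_, ?_⟩
    · have hinj := lg_inj ι K hι
      apply Matrix.map_injective hinj
      show (E * U' * D.adjugate * (V' * E)).map (lg ι K) = (D.det • E).map (lg ι K)
      set a := V'.map (lg ι K) * U with ha
      set b := V * U'.map (lg ι K) with hb
      have hab : D.map (lg ι K) = a * b := by
        rw [hD, Matrix.map_mul, Matrix.map_mul, ha, hb]
        show V'.map (lg ι K) * E₂ * U'.map (lg ι K) = _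
        rw [hEE]
        simp only [Matrix.mul_assoc]
      have hadj : D.adjugate.map (lg ι K) = b.adjugate * a.adjugate := by
        have h2 := RingHom.map_adjugate (lg ι K) D
        rw [RingHom.mapMatrix_apply, RingHom.mapMatrix_apply] at h2
        rw [h2, hab, Matrix.adjugate_mul_distrib]
      have hdd : lg ι K D.det = b.det * a.det := by
        rw [RingHom.map_det, RingHom.mapMatrix_apply, hab, Matrix.det_mul, mul_comm]
      rw [Matrix.map_mul, Matrix.map_mul, Matrix.map_mul, Matrix.map_mul, hadj, map_smul2, hdd]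
      show E₂ * U'.map (lg ι K) * (b.adjugate * a.adjugate) * (V'.map (lg ι K) * E₂) =
        (b.det * a.det) • E₂
      rw [hEE]
      calc U * V * U'.map (lg ι K) * (b.adjugate * a.adjugate) * (V'.map (lg ι K) * (U * V))
          = U * (b * b.adjugate) * (a.adjugate * a) * V := by
            rw [ha, hb]
            simp only [Matrix.mul_assoc]
        _ = (b.det * a.det) • (U * V) := by
            rw [Matrix.mul_adjugate, Matrix.adjugate_mul, Matrix.mul_smul, Matrix.mul_one,
              Matrix.mul_smul, Matrix.mul_one, Matrix.smul_mul, Matrix.smul_mul, smul_smul,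
              mul_comm]
    · calc V' * E * (E * U' * D.adjugate) = V' * (E * E) * U' * D.adjugate := by
            simp only [Matrix.mul_assoc]
        _ = D * D.adjugate := by rw [hE]
        _ = D.det • 1 := Matrix.mul_adjugate D

/-- Bass-Quillen in one variable from Quillen's question -/
theorem bwd_g [IsDomain S] [IsDomain B] [IsLocalRing B] (hι : AnPatch ι X)
    (hK : IdemFree K) : IdemFree B[X] := by
  intro n E hE
  let j : B[X] →+* LaurentPolynomial B := Polynomial.toLaurent
  let σ : LaurentPolynomial B ≃+* LaurentPolynomial B :=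
    (LaurentPolynomial.invert (R := B)).toRingEquiv
  let E₁ : Matrix (Fin n) (Fin n) (LaurentPolynomial B) :=
    (E.map j).map (σ : LaurentPolynomial B →+* LaurentPolynomial B)
  have hE₁ : E₁ * E₁ = E₁ := map_idem (map_idem hE j) _
  obtain ⟨s, U, V, hUV, hVU⟩ := hK n (E₁.map (lg ι K)) (map_idem hE₁ _)
  obtain ⟨f, hf, hsp⟩ := density_g ι K hι E₁ hE₁ ⟨s, U, V, hUV, hVU⟩
  have h1 := hsp.map (σ : LaurentPolynomial B →+* LaurentPolynomial B)
  have h2 : (σ : LaurentPolynomial B →+* LaurentPolynomial B) (Polynomial.toLaurent f) =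
      Polynomial.toLaurent f.reverse * LaurentPolynomial.T (-(f.natDegree : ℤ)) := by
    rw [LaurentPolynomial.toLaurent_reverse, mul_assoc, ← LaurentPolynomial.T_add]
    simp [σ]
  have h3 : E₁.map (σ : LaurentPolynomial B →+* LaurentPolynomial B) = E.map j := by
    ext1 i j
    exact LaurentPolynomial.involutive_invert _
  rw [h2, h3] at h1
  have h4 : SplitAt (Polynomial.toLaurent f.reverse) (E.map j) :=
    SplitAt.of_mul (LaurentPolynomial.isUnit_T _) h1
  obtain ⟨k, s', U', V', h5, h6⟩ := clear_T B E f.reverse h4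
  have hmon : (X ^ k * f.reverse).Monic := (Polynomial.monic_X_pow k).mul (monic_reverse B f hf)
  have hE₀ : E.map (evalRingHom (0 : B)) * E.map (evalRingHom (0 : B)) =
      E.map (evalRingHom (0 : B)) := map_idem hE _
  obtain ⟨t, P, Q, hPQ, hQP⟩ := idemFree_local B n _ hE₀
  obtain ⟨U'', V'', h7, h8⟩ := qh_split E hE _ hmon U' V' h5 h6 t P Q hPQ hQP
  exact ⟨t, U'', V'', h7, h8⟩

end gen

/-- Bass-Quillen in one variable for `B` from Quillen's question for `(B[[X]], r)` -/
theorem bwd_gen (B : Type) [CommRing B] [IsDomain B] [IsLocalRing B]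
    [IsAdicComplete (maximalIdeal B) B] (r : PowerSeries B)
    (hr0 : PowerSeries.constantCoeff r ∈ maximalIdeal B) (hr1 : IsUnit (PowerSeries.coeff 1 r))
    (hK : IdemFree (Localization.Away r)) : IdemFree B[X] := by
  obtain ⟨b, hb, v, hv, hrv⟩ := t_WEI1 B r hr0 hr1
  let σ : B[X] ≃+* B[X] := (Polynomial.algEquivAevalXAddC (-b)).toRingEquiv
  have hσX : σ X = X - C b := by
    show Polynomial.aeval (X + C (-b)) (X : B[X]) = _
    rw [Polynomial.aeval_X, map_neg, sub_eq_add_neg]
  have hσX' : σ.symm (X - C b) = X := by rw [← hσX, σ.symm_apply_apply]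
  let ι : B[X] →+* PowerSeries B :=
    (Polynomial.coeToPowerSeries.ringHom : B[X] →+* PowerSeries B).comp (σ : B[X] →+* B[X])
  have hιX : r = ι X * v := by
    rw [hrv]
    congr 1
    show _ = Polynomial.coeToPowerSeries.ringHom (σ X)
    rw [hσX, Polynomial.coeToPowerSeries.ringHom_apply, Polynomial.coe_sub, Polynomial.coe_X,
      Polynomial.coe_C]
  have hdist : (X - C b : B[X]).IsDistinguishedAt (maximalIdeal B) := by
    refine ⟨⟨?_⟩, Polynomial.monic_X_sub_C b⟩
    intro k hk
    rw [Polynomial.natDegree_X_sub_C] at hk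
    have hk0 : k = 0 := by omega
    rw [hk0, Polynomial.coeff_sub, Polynomial.coeff_X_zero, Polynomial.coeff_C_zero, zero_sub]
    exact (maximalIdeal B).neg_mem hb
  have hpat : AnPatch ι X := by
    have h1 := anPatch_shift _ _ (anPatch_dist _ hdist) σ
    rw [hσX'] at h1
    exact h1
  have hass : Associated (ι X) r := by
    obtain ⟨w, hw⟩ := hv
    exact ⟨w, by rw [hw, ← hιX]⟩
  have hloc : IsLocalization.Away (ι X) (Localization.Away r) :=
    (IsLocalization.Away.iff_of_associated hass).2 inferInstance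
  exact bwd_g ι (Localization.Away r) hpat hK

end Pool.Agent.TH874.QPS
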