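import Pool.Agent.TH874.QPS.Lau
import Pool.Agent.H40.BP.Asm3

/-!
# Quillen's question for `H[[X]]`, `H = W[[X_0,...,X_(r+1)]]/(X_0 X_1 - u)`
-/

set_option autoImplicit false

open Polynomial

noncomputable section

namespace Pool.Agent.TH874.QPS

open BQ Pool.Agent.W394.BQN Pool.Agent.H40.BP IsLocalRing

theorem hyp_data (W : Type) [CommRing W] [IsRegularLocalRing W]
    [IsAdicComplete (maximalIdeal W) W] (hW : ringKrullDim W = 2) (u : W)
    (hu : u ∈ maximalIdeal W) (hu2 : u ∉ maximalIdeal W ^ 2) (r : ℕ) :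
    ∃ _ : IsRegularLocalRing (MvPowerSeries (Fin (r + 2)) W ⧸ Ideal.span {(MvPowerSeries.X 0 *
      MvPowerSeries.X 1 - MvPowerSeries.C u : MvPowerSeries (Fin (r + 2)) W)}),
    ringKrullDim (MvPowerSeries (Fin (r + 2)) W ⧸ Ideal.span {(MvPowerSeries.X 0 *
      MvPowerSeries.X 1 - MvPowerSeries.C u : MvPowerSeries (Fin (r + 2)) W)}) =
        ((r + 3 : ℕ) : WithBot ℕ∞) ∧
    IsDomain (MvPowerSeries (Fin (r + 2)) W ⧸ Ideal.span {(MvPowerSeries.X 0 *
      MvPowerSeries.X 1 - MvPowerSeries.C u : MvPowerSeries (Fin (r + 2)) W)}) ∧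
    IsAdicComplete (maximalIdeal (MvPowerSeries (Fin (r + 2)) W ⧸ Ideal.span
      {(MvPowerSeries.X 0 * MvPowerSeries.X 1 - MvPowerSeries.C u :
        MvPowerSeries (Fin (r + 2)) W)})) (MvPowerSeries (Fin (r + 2)) W ⧸ Ideal.span
      {(MvPowerSeries.X 0 * MvPowerSeries.X 1 - MvPowerSeries.C u :
        MvPowerSeries (Fin (r + 2)) W)}) ∧
    IdemFree (MvPowerSeries (Fin (r + 2)) W ⧸ Ideal.span {(MvPowerSeries.X 0 *
      MvPowerSeries.X 1 - MvPowerSeries.C u : MvPowerSeries (Fin (r + 2)) W)})[X] := by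
  obtain ⟨hreg, hdim⟩ := hyp_regular W hW u hu hu2 r
  obtain ⟨hd, hpr, t, ht⟩ := t_R2U W hW u hu hu2
  have hreg' : IsRegularLocalRing (MvPowerSeries (Fin (r + 2)) W ⧸ Ideal.span {(MvPowerSeries.X 0 *
      MvPowerSeries.X 1 - MvPowerSeries.C u : MvPowerSeries (Fin (r + 2)) W)}) := hreg
  have hdom : IsDomain (MvPowerSeries (Fin (r + 2)) W ⧸ Ideal.span {(MvPowerSeries.X 0 *
      MvPowerSeries.X 1 - MvPowerSeries.C u : MvPowerSeries (Fin (r + 2)) W)}) :=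
    hyp_domain W hW u hu hu2 r
  have hpow : IsRegularLocalRing (MvPowerSeries (Fin (r + 2)) W) := t_RGP (r + 2) W
  have hc0 := t_CPL (r + 2) W
  have hcpl := complete_quot (A := MvPowerSeries (Fin (r + 2)) W) (Ideal.span {(MvPowerSeries.X 0 *
      MvPowerSeries.X 1 - MvPowerSeries.C u : MvPowerSeries (Fin (r + 2)) W)})
  refine ⟨hreg', hdim, hdom, hcpl, ?_⟩
  exact IdemFree.of_equiv (MvPolynomial.uniqueAlgEquiv _ (Fin 1)).toRingEquiv
    (c_SSX W u t ht hpr r 1)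

end Pool.Agent.TH874.QPS
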