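import Pool.Agent.TH874.QPS.Fwd

/-!
# From Quillen's question for power series rings to Bass-Quillen in one variable
-/

set_option autoImplicit false

open Polynomial

noncomputable section

namespace Pool.Agent.TH874.QPS

open BQ Pool.Agent.H40.BP IsLocalRing

theorem clear_mat {R S : Type} [CommRing R] [CommRing S] [Algebra R S] (x : R)
    [IsLocalization.Away x S] {m n : ℕ} (M : Matrix (Fin m) (Fin n) S) :
    ∃ (k : ℕ) (M' : Matrix (Fin m) (Fin n) R),
      M'.map (algebraMap R S) = algebraMap R S (x ^ k) • M := by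
  obtain ⟨⟨b, k, hk⟩, hb⟩ := IsLocalization.exist_integer_multiples_of_finite
    (Submonoid.powers x) (fun p : Fin m × Fin n => M p.1 p.2)
  choose r hr using hb
  refine ⟨k, Matrix.of fun i j => r (i, j), ?_⟩
  ext i j
  have h1 := hr (i, j)
  simp only [Algebra.smul_def] at h1
  rw [Matrix.map_apply, Matrix.of_apply, h1, Matrix.smul_apply, smul_eq_mul]
  have h2 : x ^ k = b := hk
  rw [h2]

variable (B : Type) [CommRing B]

theorem lk_T (k : ℕ) : lk B (LaurentPolynomial.T k) =
    algebraMap (PowerSeries B) (KX B) (PowerSeries.X ^ k) := by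
  rw [← Polynomial.toLaurent_X_pow, lk_toLaurent, map_pow, Polynomial.coeToPowerSeries.ringHom_apply,
    Polynomial.coe_X]

theorem approx (z : KX B) (N : ℕ) : ∃ (b : LaurentPolynomial B) (c : PowerSeries B),
    z = lk B b + algebraMap (PowerSeries B) (KX B) (PowerSeries.X ^ N * c) := by
  obtain ⟨k, r, hr⟩ := kx_surj B z
  have hu : IsUnit (algebraMap (PowerSeries B) (KX B) (PowerSeries.X ^ k)) := by
    rw [map_pow]
    exact (kx_unit B).pow k
  refine ⟨LaurentPolynomial.T (-(k : ℤ)) * Polynomial.toLaurent (r.trunc (N + k)),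
    PowerSeries.mk fun i => PowerSeries.coeff (i + (N + k)) r, ?_⟩
  apply hu.mul_left_cancel
  have h1 := PowerSeries.eq_shift_mul_X_pow_add_trunc (N + k) r
  have h2 : algebraMap (PowerSeries B) (KX B) (PowerSeries.X ^ k) *
      lk B (LaurentPolynomial.T (-(k : ℤ))) = 1 := by
    rw [← lk_T, ← map_mul, ← LaurentPolynomial.T_add, add_neg_cancel, LaurentPolynomial.T_zero,
      map_one]
  rw [hr, mul_add, map_mul (lk B), ← mul_assoc, h2, one_mul, lk_toLaurent, ← map_mul, ← map_add]
  congr 1
  conv_lhs => rw [h1]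
  rw [Polynomial.coeToPowerSeries.ringHom_apply, pow_add]
  ring

theorem lk_inj [IsDomain B] : Function.Injective (lk B) := by
  rw [injective_iff_map_eq_zero]
  intro z hz
  obtain ⟨k, a, ha⟩ := LaurentPolynomial.exists_T_pow z
  have h1 : algebraMap (PowerSeries B) (KX B) (Polynomial.coeToPowerSeries.ringHom a) = 0 := by
    rw [← lk_toLaurent, ha, map_mul, hz, zero_mul]
  have h2 : Polynomial.coeToPowerSeries.ringHom a = 0 := kx_inj B (by rw [h1, map_zero])
  have h3 : a = 0 := Polynomial.coe_injective B (by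
    rw [Polynomial.coeToPowerSeries.ringHom_apply] at h2
    rw [h2, Polynomial.coe_zero])
  rw [h3, map_zero] at ha
  exact ((LaurentPolynomial.isUnit_T (R := B) (k : ℤ)).mul_left_eq_zero).1 ha.symm

theorem integral_of_lk [IsDomain B] (b : LaurentPolynomial B) (r : PowerSeries B)
    (h : lk B b = algebraMap (PowerSeries B) (KX B) r) :
    ∃ f : B[X], b = Polynomial.toLaurent f ∧ (f : PowerSeries B) = r := by
  obtain ⟨k, a, ha⟩ := LaurentPolynomial.exists_T_pow b
  have h1 : (a : PowerSeries B) = PowerSeries.X ^ k * r := by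
    apply kx_inj B
    rw [map_mul, ← h, ← Polynomial.coeToPowerSeries.ringHom_apply, ← lk_toLaurent, ha, map_mul, lk_T,
      mul_comm]
  have h2 : X ^ k ∣ a := by
    rw [Polynomial.X_pow_dvd_iff]
    intro d hd
    have h3 : (PowerSeries.X : PowerSeries B) ^ k ∣ (a : PowerSeries B) := ⟨r, h1⟩
    have h4 := (PowerSeries.X_pow_dvd_iff.1 h3) d hd
    rwa [Polynomial.coeff_coe] at h4
  obtain ⟨f, rfl⟩ := h2
  refine ⟨f, ?_, ?_⟩
  · have h5 : Polynomial.toLaurent f * LaurentPolynomial.T k = b * LaurentPolynomial.T k := by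
      rw [← ha, map_mul, Polynomial.toLaurent_X_pow, mul_comm]
    exact (LaurentPolynomial.isUnit_T (R := B) (k : ℤ)).mul_right_cancel h5.symm
  · rw [Polynomial.coe_mul, Polynomial.coe_pow, Polynomial.coe_X] at h1
    exact mul_left_cancel₀ (pow_ne_zero k PowerSeries.X_ne_zero) h1

theorem approx_mat {m n : ℕ} (M : Matrix (Fin m) (Fin n) (KX B)) (N : ℕ) :
    ∃ (M' : Matrix (Fin m) (Fin n) (LaurentPolynomial B))
      (Z : Matrix (Fin m) (Fin n) (PowerSeries B)),
      M = M'.map (lk B) + algebraMap (PowerSeries B) (KX B) (PowerSeries.X ^ N) •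
        Z.map (algebraMap (PowerSeries B) (KX B)) := by
  choose b c hbc using fun i j => approx B (M i j) N
  refine ⟨Matrix.of b, Matrix.of c, ?_⟩
  ext i j
  rw [Matrix.add_apply, Matrix.map_apply, Matrix.smul_apply, Matrix.map_apply, Matrix.of_apply,
    Matrix.of_apply, smul_eq_mul, ← map_mul]
  exact hbc i j

theorem integral_mat [IsDomain B] {m n : ℕ} (D : Matrix (Fin m) (Fin n) (LaurentPolynomial B))
    (W : Matrix (Fin m) (Fin n) (PowerSeries B))
    (h : D.map (lk B) = W.map (algebraMap (PowerSeries B) (KX B))) :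
    ∃ D₁ : Matrix (Fin m) (Fin n) B[X], D = D₁.map Polynomial.toLaurent ∧
      ∀ i j, (D₁ i j).coeff 0 = PowerSeries.constantCoeff (W i j) := by
  have h1 : ∀ i j, lk B (D i j) = algebraMap (PowerSeries B) (KX B) (W i j) := fun i j =>
    congrFun (congrFun h i) j
  choose f hf1 hf2 using fun i j => integral_of_lk B (D i j) (W i j) (h1 i j)
  refine ⟨Matrix.of f, ?_, ?_⟩
  · ext1 i j
    rw [Matrix.map_apply, Matrix.of_apply]
    exact hf1 i j
  · intro i j
    rw [Matrix.of_apply, ← hf2 i j, ← PowerSeries.coeff_zero_eq_constantCoeff_apply,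
      Polynomial.coeff_coe]

/-- the main computation: splitting over `B[[X]][1/X]` gives splitting up to a polynomial with
constant term one -/
theorem density [IsDomain B] {n : ℕ} (E : Matrix (Fin n) (Fin n) (LaurentPolynomial B))
    (hE : E * E = E) (h : Split (E.map (lk B))) :
    ∃ f : B[X], f.coeff 0 = 1 ∧ SplitAt (Polynomial.toLaurent f) E := by
  obtain ⟨s, U, V, hUV, hVU⟩ := h
  obtain ⟨k₁, U₀, hU₀⟩ := clear_mat (PowerSeries.X : PowerSeries B) U
  obtain ⟨k₂, V₀, hV₀⟩ := clear_mat (PowerSeries.X : PowerSeries B) V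
  set ρ := algebraMap (PowerSeries B) (KX B) with hρ
  set N := k₁ + k₂ + 1 with hN
  obtain ⟨U', CU, hU'⟩ := approx_mat B U N
  obtain ⟨V', CV, hV'⟩ := approx_mat B V N
  set E₂ := E.map (lk B) with hE₂
  have hV : V * E₂ = V := by rw [← hUV, ← Matrix.mul_assoc, hVU, Matrix.one_mul]
  have hU : E₂ * U = U := by rw [← hUV, Matrix.mul_assoc, hVU, Matrix.mul_one]
  have hEE : E₂ = U * V := hUV.symm
  have hU'' : U'.map (lk B) = U - ρ (PowerSeries.X ^ N) • CU.map ρ := by
    rw [hU']
    exact (add_sub_cancel_right _ _).symm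
  have hV'' : V'.map (lk B) = V - ρ (PowerSeries.X ^ N) • CV.map ρ := by
    rw [hV']
    exact (add_sub_cancel_right _ _).symm
  set W : Matrix (Fin s) (Fin s) (PowerSeries B) :=
    1 - (PowerSeries.X * PowerSeries.X ^ k₂ : PowerSeries B) • (CV * U₀) -
      (PowerSeries.X * PowerSeries.X ^ k₁ : PowerSeries B) • (V₀ * CU) +
      (PowerSeries.X * PowerSeries.X ^ N : PowerSeries B) • (CV * U₀ * (V₀ * CU)) with hW
  have hmain : (V' * E * U').map (lk B) = W.map ρ := by
    have e1 : (V' * E * U').map (lk B) = V'.map (lk B) * E₂ * U'.map (lk B) := by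
      rw [Matrix.map_mul, Matrix.map_mul]
    rw [e1, hU'', hV'']
    have e2 : (V - ρ (PowerSeries.X ^ N) • CV.map ρ) * E₂ * (U - ρ (PowerSeries.X ^ N) • CU.map ρ) =
        1 - ρ (PowerSeries.X ^ N) • (CV.map ρ * U) - ρ (PowerSeries.X ^ N) • (V * CU.map ρ) +
          (ρ (PowerSeries.X ^ N) * ρ (PowerSeries.X ^ N)) • (CV.map ρ * U * (V * CU.map ρ)) := by
      rw [Matrix.sub_mul, hV, Matrix.sub_mul, Matrix.mul_sub, Matrix.mul_sub, hVU, Matrix.smul_mul,
        Matrix.smul_mul, Matrix.mul_assoc (CV.map ρ) E₂ U, hU, Matrix.mul_smul, Matrix.smul_mul,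
        Matrix.mul_smul, smul_smul, hEE]
      simp only [Matrix.mul_assoc]
      abel
    rw [e2]
    have e3 : ρ (PowerSeries.X ^ N) • (CV.map ρ * U) =
        ((PowerSeries.X * PowerSeries.X ^ k₂ : PowerSeries B) • (CV * U₀)).map ρ := by
      rw [map_smul2, Matrix.map_mul, hU₀, Matrix.mul_smul, smul_smul, ← map_mul]
      congr 2
      rw [hN]
      ring
    have e4 : ρ (PowerSeries.X ^ N) • (V * CU.map ρ) =
        ((PowerSeries.X * PowerSeries.X ^ k₁ : PowerSeries B) • (V₀ * CU)).map ρ := by
      rw [map_smul2, Matrix.map_mul, hV₀, Matrix.smul_mul, smul_smul, ← map_mul]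
      congr 2
      rw [hN]
      ring
    have e5 : (ρ (PowerSeries.X ^ N) * ρ (PowerSeries.X ^ N)) •
          (CV.map ρ * U * (V * CU.map ρ)) =
        ((PowerSeries.X * PowerSeries.X ^ N : PowerSeries B) • (CV * U₀ * (V₀ * CU))).map ρ := by
      rw [map_smul2, Matrix.map_mul, Matrix.map_mul, Matrix.map_mul, hU₀, hV₀]
      simp only [Matrix.mul_smul, Matrix.smul_mul, smul_smul, ← map_mul]
      congr 2
      rw [hN]
      ring
    have e6 : (1 : Matrix (Fin s) (Fin s) (KX B)) =
        (1 : Matrix (Fin s) (Fin s) (PowerSeries B)).map ρ :=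
      (Matrix.map_one ρ (map_zero ρ) (map_one ρ)).symm
    rw [e3, e4, e5, hW, e6]
    ext i j
    simp only [Matrix.map_apply, Matrix.add_apply, Matrix.sub_apply, map_add, map_sub]
  obtain ⟨D₁, hD₁, hD₀⟩ := integral_mat B _ W hmain
  refine ⟨D₁.det, ?_, ?_⟩
  · have h1 : D₁.map (evalRingHom 0) = 1 := by
      ext i j
      rw [Matrix.map_apply, coe_evalRingHom, ← Polynomial.coeff_zero_eq_eval_zero, hD₀, hW]
      simp [Matrix.one_apply, apply_ite]
    rw [Polynomial.coeff_zero_eq_eval_zero, ← coe_evalRingHom, RingHom.map_det]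
    show (D₁.map (evalRingHom 0)).det = 1
    rw [h1, Matrix.det_one]
  · set D := V' * E * U' with hD
    have hdet : Polynomial.toLaurent D₁.det = D.det := by
      rw [hD₁]
      exact RingHom.map_det Polynomial.toLaurent D₁
    rw [hdet]
    refine ⟨s, E * U' * D.adjugate, V' * E, ?_, ?_⟩
    · have hinj := lk_inj B
      apply Matrix.map_injective hinj
      show (E * U' * D.adjugate * (V' * E)).map (lk B) = (D.det • E).map (lk B)
      set a := V'.map (lk B) * U with ha
      set b := V * U'.map (lk B) with hb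
      have hab : D.map (lk B) = a * b := by
        rw [hD, Matrix.map_mul, Matrix.map_mul, ha, hb]
        show V'.map (lk B) * E₂ * U'.map (lk B) = _
        rw [hEE]
        simp only [Matrix.mul_assoc]
      have hadj : D.adjugate.map (lk B) = b.adjugate * a.adjugate := by
        have h2 := RingHom.map_adjugate (lk B) D
        rw [RingHom.mapMatrix_apply, RingHom.mapMatrix_apply] at h2
        rw [h2, hab, Matrix.adjugate_mul_distrib]
      have hdd : lk B D.det = b.det * a.det := by
        rw [RingHom.map_det, RingHom.mapMatrix_apply, hab, Matrix.det_mul, mul_comm]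
      rw [Matrix.map_mul, Matrix.map_mul, Matrix.map_mul, Matrix.map_mul, hadj, map_smul2, hdd]
      show E₂ * U'.map (lk B) * (b.adjugate * a.adjugate) * (V'.map (lk B) * E₂) =
        (b.det * a.det) • E₂
      rw [hEE]
      calc U * V * U'.map (lk B) * (b.adjugate * a.adjugate) * (V'.map (lk B) * (U * V))
          = U * (b * b.adjugate) * (a.adjugate * a) * V := by
            rw [ha, hb]
            simp only [Matrix.mul_assoc]
        _ = (b.det * a.det) • (U * V) := by
            rw [Matrix.mul_adjugate, Matrix.adjugate_mul, Matrix.mul_smul, Matrix.mul_one,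
              Matrix.mul_smul, Matrix.mul_one, Matrix.smul_mul, Matrix.smul_mul, smul_smul,
              mul_comm]
    · calc V' * E * (E * U' * D.adjugate) = V' * (E * E) * U' * D.adjugate := by
            simp only [Matrix.mul_assoc]
        _ = D * D.adjugate := by rw [hE]
        _ = D.det • 1 := Matrix.mul_adjugate D

theorem monic_reverse (f : B[X]) (hf : f.coeff 0 = 1) [Nontrivial B] : f.reverse.Monic := by
  have h0 : f.natTrailingDegree = 0 := by
    rw [Polynomial.natTrailingDegree_eq_zero]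
    right
    rw [hf]
    exact one_ne_zero
  rw [Polynomial.Monic, Polynomial.reverse_leadingCoeff, Polynomial.trailingCoeff, h0, hf]

/-- splitting over `B[X,1/X]` up to a polynomial gives splitting over `B[X]` up to this polynomial
and a power of `X` -/
theorem clear_T {n : ℕ} (E : Matrix (Fin n) (Fin n) B[X]) (g : B[X])
    (h : SplitAt (Polynomial.toLaurent g) (E.map (Polynomial.toLaurent : B[X] →+*
      LaurentPolynomial B))) : ∃ k : ℕ, SplitAt (X ^ k * g) E := by
  obtain ⟨s, U, V, h1, h2⟩ := h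
  obtain ⟨k₁, U₀, hU₀⟩ := clear_mat (X : B[X]) U
  obtain ⟨k₂, V₀, hV₀⟩ := clear_mat (X : B[X]) V
  have hinj := Polynomial.toLaurent_injective (R := B)
  refine ⟨k₁ + k₂, s, U₀, V₀, ?_, ?_⟩
  · apply Matrix.map_injective hinj
    show (U₀ * V₀).map (Polynomial.toLaurent : B[X] →+* LaurentPolynomial B) =
      ((X ^ (k₁ + k₂) * g) • E).map (Polynomial.toLaurent : B[X] →+* LaurentPolynomial B)
    have e1 : (U₀ * V₀).map (Polynomial.toLaurent : B[X] →+* LaurentPolynomial B) =
        (U₀.map (algebraMap B[X] (LaurentPolynomial B))) *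
          (V₀.map (algebraMap B[X] (LaurentPolynomial B))) := Matrix.map_mul
    rw [e1, hU₀, hV₀, Matrix.smul_mul, Matrix.mul_smul, h1, map_smul2, smul_smul, smul_smul]
    congr 1
    simp only [LaurentPolynomial.algebraMap_eq_toLaurent, pow_add, map_mul]
  · apply Matrix.map_injective hinj
    show (V₀ * U₀).map (Polynomial.toLaurent : B[X] →+* LaurentPolynomial B) =
      ((X ^ (k₁ + k₂) * g) • (1 : Matrix (Fin s) (Fin s) B[X])).map
        (Polynomial.toLaurent : B[X] →+* LaurentPolynomial B)
    have e1 : (V₀ * U₀).map (Polynomial.toLaurent : B[X] →+* LaurentPolynomial B) =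
        (V₀.map (algebraMap B[X] (LaurentPolynomial B))) *
          (U₀.map (algebraMap B[X] (LaurentPolynomial B))) := Matrix.map_mul
    rw [e1, hU₀, hV₀, Matrix.smul_mul, Matrix.mul_smul, h2, map_smul2, smul_smul, smul_smul,
      Matrix.map_one _ (map_zero _) (map_one _)]
    congr 1
    simp only [LaurentPolynomial.algebraMap_eq_toLaurent, pow_add, map_mul]
    ring

/-- Bass-Quillen in one variable from Quillen's question -/
theorem bwd [IsDomain B] [IsLocalRing B] (hK : IdemFree (KX B)) : IdemFree B[X] := by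
  intro n E hE
  let ι : B[X] →+* LaurentPolynomial B := Polynomial.toLaurent
  let σ : LaurentPolynomial B ≃+* LaurentPolynomial B :=
    (LaurentPolynomial.invert (R := B)).toRingEquiv
  let E₁ : Matrix (Fin n) (Fin n) (LaurentPolynomial B) :=
    (E.map ι).map (σ : LaurentPolynomial B →+* LaurentPolynomial B)
  have hE₁ : E₁ * E₁ = E₁ := map_idem (map_idem hE ι) _
  obtain ⟨s, U, V, hUV, hVU⟩ := hK n (E₁.map (lk B)) (map_idem hE₁ _)
  obtain ⟨f, hf, hsp⟩ := density B E₁ hE₁ ⟨s, U, V, hUV, hVU⟩
  have h1 := hsp.map (σ : LaurentPolynomial B →+* LaurentPolynomial B)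
  have h2 : (σ : LaurentPolynomial B →+* LaurentPolynomial B) (Polynomial.toLaurent f) =
      Polynomial.toLaurent f.reverse * LaurentPolynomial.T (-(f.natDegree : ℤ)) := by
    rw [LaurentPolynomial.toLaurent_reverse, mul_assoc, ← LaurentPolynomial.T_add]
    simp [σ]
  have h3 : E₁.map (σ : LaurentPolynomial B →+* LaurentPolynomial B) = E.map ι := by
    ext1 i j
    exact LaurentPolynomial.involutive_invert _
  rw [h2, h3] at h1
  have h4 : SplitAt (Polynomial.toLaurent f.reverse) (E.map ι) :=
    SplitAt.of_mul (LaurentPolynomial.isUnit_T _) h1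
  obtain ⟨k, s', U', V', h5, h6⟩ := clear_T B E f.reverse h4
  have hmon : (X ^ k * f.reverse).Monic := (Polynomial.monic_X_pow k).mul (monic_reverse B f hf)
  have hE₀ : E.map (evalRingHom (0 : B)) * E.map (evalRingHom (0 : B)) =
      E.map (evalRingHom (0 : B)) := map_idem hE _
  obtain ⟨t, P, Q, hPQ, hQP⟩ := idemFree_local B n _ hE₀
  obtain ⟨U'', V'', h7, h8⟩ := qh_split E hE _ hmon U' V' h5 h6 t P Q hPQ hQP
  exact ⟨t, U'', V'', h7, h8⟩

end Pool.Agent.TH874.QPS
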