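import Pool.Agent.TH874.QPS.Loc
import Pool.Agent.H40.BP.PATCH
import Pool.Agent.H40.BP.WEI

/-!
# From Bass-Quillen in one variable to Quillen's question for power series rings
-/

set_option autoImplicit false

open Polynomial

noncomputable section

namespace Pool.Agent.TH874.QPS

open BQ Pool.Agent.H40.BP IsLocalRing

open LaurentPolynomial in
/-- if `E` splits up to a power of a monic polynomial, and idempotents over `C[X]` split,
then `E` splits -/
theorem split_laurent {C : Type} [CommRing C] (hC : IdemFree C[X]) (g : C[X]) (hg : g.Monic)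
    (N : ℕ) {n : ℕ} (E : Matrix (Fin n) (Fin n) C[T;T⁻¹]) (hE : E * E = E)
    (h : SplitAt (Polynomial.toLaurent g ^ N) E) : Split E := by
  set σ : C[T;T⁻¹] ≃+* C[T;T⁻¹] := (LaurentPolynomial.invert (R := C)).toRingEquiv with hσ
  apply Split.of_equiv σ
  have h1 := h.map (σ : C[T;T⁻¹] →+* C[T;T⁻¹])
  have h2 : (σ : C[T;T⁻¹] →+* C[T;T⁻¹]) (Polynomial.toLaurent g) =
      Polynomial.toLaurent g.reverse * T (-(g.natDegree : ℤ)) := by
    rw [LaurentPolynomial.toLaurent_reverse, mul_assoc, ← T_add]
    simp [hσ]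
  rw [map_pow, h2, mul_pow] at h1
  have h3 : SplitAt (Polynomial.toLaurent (g.reverse ^ N)) (E.map (σ : C[T;T⁻¹] →+* C[T;T⁻¹])) := by
    rw [map_pow]
    exact SplitAt.of_mul ((LaurentPolynomial.isUnit_T _).pow N) h1
  have h0 : (g.reverse ^ N).coeff 0 = 1 := by
    rw [Polynomial.coeff_zero_eq_eval_zero, Polynomial.eval_pow,
      ← Polynomial.coeff_zero_eq_eval_zero, Polynomial.coeff_zero_reverse, hg.leadingCoeff, one_pow]
  obtain ⟨n', E', hE', -, himp⟩ := t_PATCH _ _ _ _ (anPatch_laurent (g.reverse ^ N) h0) n _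
    (map_idem hE _) h3
  exact himp (hC n' E' hE')

variable (B : Type) [CommRing B]

/-- `B[[X]][1/X]` -/
abbrev KX : Type := Localization.Away (PowerSeries.X : PowerSeries B)

theorem powX (B : Type) [CommRing B] (s : PowerSeries B)
    (hs : s ∈ Submonoid.powers (PowerSeries.X : PowerSeries B)) :
    ∃ k : ℕ, s = PowerSeries.X ^ k := by
  obtain ⟨k, hk⟩ := hs
  exact ⟨k, hk.symm⟩

theorem kx_inj [IsDomain B] : Function.Injective (algebraMap (PowerSeries B) (KX B)) :=
  IsLocalization.injective (KX B) (powers_le_nonZeroDivisors_of_noZeroDivisors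
    PowerSeries.X_ne_zero)

theorem kx_surj (z : KX B) : ∃ (k : ℕ) (r : PowerSeries B),
    algebraMap (PowerSeries B) (KX B) (PowerSeries.X ^ k) * z =
      algebraMap (PowerSeries B) (KX B) r := by
  obtain ⟨⟨r, s⟩, hrs⟩ := IsLocalization.surj (Submonoid.powers (PowerSeries.X : PowerSeries B)) z
  obtain ⟨k, hk⟩ := powX B s.1 s.2
  refine ⟨k, r, ?_⟩
  rw [← hk, mul_comm]
  exact hrs

theorem kx_unit : IsUnit (algebraMap (PowerSeries B) (KX B) PowerSeries.X) :=
  IsLocalization.Away.algebraMap_isUnit _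

/-- the inclusion `B[X,1/X] → B[[X]][1/X]` -/
def lk : LaurentPolynomial B →+* KX B :=
  IsLocalization.Away.lift (S := LaurentPolynomial B) (X : B[X])
    (g := (algebraMap (PowerSeries B) (KX B)).comp Polynomial.coeToPowerSeries.ringHom)
    (by
      rw [RingHom.comp_apply, Polynomial.coeToPowerSeries.ringHom_apply, Polynomial.coe_X]
      exact kx_unit B)

theorem lk_toLaurent (f : B[X]) : lk B (Polynomial.toLaurent f) =
    algebraMap (PowerSeries B) (KX B) (Polynomial.coeToPowerSeries.ringHom f) := by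
  rw [lk, ← LaurentPolynomial.algebraMap_eq_toLaurent, IsLocalization.Away.lift_eq]
  rfl

theorem anPatch_kx [IsDomain B] (g : B[X])
    (h : AnPatch (Polynomial.coeToPowerSeries.ringHom : B[X] →+* PowerSeries B) g) :
    AnPatch (lk B) (Polynomial.toLaurent g) := by
  refine anPatch_loc (Polynomial.coeToPowerSeries.ringHom : B[X] →+* PowerSeries B) g
    (Polynomial.toLaurent : B[X] →+* LaurentPolynomial B) (algebraMap (PowerSeries B) (KX B)) (lk B)
    (Submonoid.powers X) h Polynomial.toLaurent_injective (kx_inj B) (lk_toLaurent B) ?_ ?_ ?_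
  · rintro s ⟨k, rfl⟩
    simp only [Polynomial.toLaurent_X_pow]
    exact LaurentPolynomial.isUnit_T _
  · intro z
    obtain ⟨k, a, ha⟩ := LaurentPolynomial.exists_T_pow z
    refine ⟨X ^ k, ⟨k, rfl⟩, a, ?_⟩
    rw [Polynomial.toLaurent_X_pow, ha, mul_comm]
  · intro z
    obtain ⟨k, r, hr⟩ := kx_surj B z
    refine ⟨X ^ k, ⟨k, rfl⟩, r, ?_⟩
    rw [map_pow Polynomial.coeToPowerSeries.ringHom, Polynomial.coeToPowerSeries.ringHom_apply,
      Polynomial.coe_X]
    exact hr

/-- Quillen's question for `B[[X]]` and `X` -/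
theorem fwd [IsDomain B] [IsLocalRing B] [IsAdicComplete (maximalIdeal B) B]
    (hB : IdemFree B[X]) : IdemFree (KX B) := by
  intro n E hE
  let π : PowerSeries B →+* PowerSeries (ResidueField B) := PowerSeries.map (residue B)
  let p : Ideal (PowerSeries B) := RingHom.ker π
  have hp : p.IsPrime := RingHom.ker_isPrime π
  have hX : (PowerSeries.X : PowerSeries B) ∉ p := by
    intro h
    have h1 : π PowerSeries.X = 0 := h
    rw [PowerSeries.map_X] at h1
    exact PowerSeries.X_ne_zero h1
  have hXu : IsUnit (algebraMap (PowerSeries B) (Localization.AtPrime p) PowerSeries.X) :=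
    IsLocalization.map_units (Localization.AtPrime p) (⟨PowerSeries.X, hX⟩ : p.primeCompl)
  let a : KX B →+* Localization.AtPrime p := IsLocalization.Away.lift PowerSeries.X hXu
  have ha : ∀ r, a (algebraMap (PowerSeries B) (KX B) r) =
      algebraMap (PowerSeries B) (Localization.AtPrime p) r := fun r =>
    IsLocalization.Away.lift_eq _ _ _
  have hLinj : Function.Injective (algebraMap (PowerSeries B) (Localization.AtPrime p)) :=
    IsLocalization.injective _ p.primeCompl_le_nonZeroDivisors
  have hainj : Function.Injective a := by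
    rw [injective_iff_map_eq_zero]
    intro z hz
    obtain ⟨k, r, hr⟩ := kx_surj B z
    have h1 : algebraMap (PowerSeries B) (Localization.AtPrime p) r = 0 := by
      rw [← ha, ← hr, map_mul, hz, mul_zero]
    have h2 : r = 0 := hLinj (by rw [h1, map_zero])
    rw [h2, map_zero] at hr
    exact (((kx_unit B).pow k).mul_right_eq_zero).1 (by rw [← map_pow]; exact hr)
  obtain ⟨s, U, V, h1, h2⟩ := idemFree_local (Localization.AtPrime p) n (E.map a)
    (by rw [← Matrix.map_mul, hE])
  obtain ⟨c, hc, U', V', h3, h4⟩ := clear_split a hainj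
    (p.primeCompl.map (algebraMap (PowerSeries B) (KX B))) (by
      intro z
      obtain ⟨⟨r, t⟩, hrt⟩ := IsLocalization.surj p.primeCompl z
      refine ⟨_, ⟨t.1, t.2, rfl⟩, algebraMap (PowerSeries B) (KX B) r, ?_⟩
      rw [ha, ha, mul_comm]
      exact hrt) E U V h1 h2
  obtain ⟨f, hf, rfl⟩ := hc
  obtain ⟨k, hk⟩ : ∃ k, IsUnit (PowerSeries.coeff k f) := by
    by_contra hcon
    push Not at hcon
    apply hf
    show π f = 0
    ext k
    rw [PowerSeries.coeff_map, map_zero, residue_eq_zero_iff, mem_maximalIdeal, mem_nonunits_iff]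
    exact hcon k
  obtain ⟨g, u, hu, hfg, hg, -, hpat⟩ := t_WEI B f ⟨k, hk⟩
  have h5 : SplitAt (lk B (Polynomial.toLaurent g)) E := by
    apply SplitAt.of_mul (u := algebraMap (PowerSeries B) (KX B) u) (hu.map _)
    rw [lk_toLaurent, ← map_mul]
    have h6 : f = Polynomial.coeToPowerSeries.ringHom g * u := hfg
    rw [← h6]
    exact ⟨s, U', V', h3, h4⟩
  obtain ⟨n', E', hE', ⟨N, hN⟩, himp⟩ := t_PATCH _ _ _ _ (anPatch_kx B g hpat) n E hE h5
  exact himp (split_laurent hB g hg N E' hE' hN)

end Pool.Agent.TH874.QPS
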