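import Pool.Agent.TH874.QPS.Bwd

/-!
# Laurent polynomials; completeness of quotients
-/

set_option autoImplicit false

open Polynomial

noncomputable section

namespace Pool.Agent.TH874.QPS

open BQ Pool.Agent.H40.BP IsLocalRing

/-- idempotents over `B[X,1/X]` split if those over `B[X]` and over `B[[X]][1/X]` do -/
theorem laurent_split (B : Type) [CommRing B] [IsDomain B] [IsLocalRing B]
    (hK : IdemFree (KX B)) (hB : IdemFree B[X]) : IdemFree (LaurentPolynomial B) := by
  intro n E hE
  obtain ⟨s, U, V, hUV, hVU⟩ := hK n (E.map (lk B)) (map_idem hE _)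
  obtain ⟨f, hf, hsp⟩ := density B E hE ⟨s, U, V, hUV, hVU⟩
  obtain ⟨n', E', hE', -, himp⟩ := t_PATCH _ _ _ _ (anPatch_laurent f hf) n E hE hsp
  exact himp (hB n' E' hE')

/-- Horrocks: idempotents over `B[X]` split if those over `B[X,1/X]` do -/
theorem laurent_horrocks (B : Type) [CommRing B] [IsDomain B] [IsLocalRing B]
    (hL : IdemFree (LaurentPolynomial B)) : IdemFree B[X] := by
  intro n E hE
  obtain ⟨s, U, V, hUV, hVU⟩ := hL n (E.map (Polynomial.toLaurent : B[X] →+*
    LaurentPolynomial B)) (map_idem hE _)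
  obtain ⟨k, s', U', V', h5, h6⟩ := clear_T B E 1 ⟨s, U, V, by rw [map_one, one_smul, hUV],
    by rw [map_one, one_smul, hVU]⟩
  have hmon : (X ^ k * 1 : B[X]).Monic := by
    rw [mul_one]
    exact Polynomial.monic_X_pow k
  have hE₀ : E.map (evalRingHom (0 : B)) * E.map (evalRingHom (0 : B)) =
      E.map (evalRingHom (0 : B)) := map_idem hE _
  obtain ⟨t, P, Q, hPQ, hQP⟩ := idemFree_local B n _ hE₀
  obtain ⟨U'', V'', h7, h8⟩ := qh_split E hE _ hmon U' V' h5 h6 t P Q hPQ hQP
  exact ⟨t, U'', V'', h7, h8⟩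

/-- quotients of complete noetherian local rings are complete -/
theorem complete_quot {A : Type} [CommRing A] [IsLocalRing A] [IsNoetherianRing A]
    [IsAdicComplete (maximalIdeal A) A] (I : Ideal A) [IsLocalRing (A ⧸ I)] :
    IsAdicComplete (maximalIdeal (A ⧸ I)) (A ⧸ I) := by
  have h1 : (maximalIdeal A).map (algebraMap A (A ⧸ I)) = maximalIdeal (A ⧸ I) :=
    IsLocalRing.map_maximalIdeal_of_surjective _ Ideal.Quotient.mk_surjective
  rw [← h1, IsAdicComplete.map_algebraMap_iff]
  have h2 : Function.Surjective (AdicCompletion.of (maximalIdeal A) (A ⧸ I)) := by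
    intro y
    obtain ⟨z, rfl⟩ := AdicCompletion.map_surjective (maximalIdeal A)
      (f := (Algebra.linearMap A (A ⧸ I))) Ideal.Quotient.mk_surjective y
    obtain ⟨a, rfl⟩ := AdicCompletion.of_surjective (maximalIdeal A) A z
    exact ⟨Ideal.Quotient.mk I a, by rw [AdicCompletion.map_of]; rfl⟩
  exact { toIsPrecomplete := AdicCompletion.of_surjective_iff.mp h2, toIsHausdorff := inferInstance }

/-- the equivalence -/
theorem main_equiv (B : Type) [CommRing B] [IsDomain B] [IsLocalRing B]
    [IsAdicComplete (maximalIdeal B) B] :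
    (IdemFree (KX B) ↔ IdemFree B[X]) ∧ (IdemFree (LaurentPolynomial B) ↔ IdemFree B[X]) :=
  ⟨⟨bwd B, fwd B⟩, ⟨laurent_horrocks B, fun h => laurent_split B (fwd B h) h⟩⟩

end Pool.Agent.TH874.QPS
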