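import Pool.Agent.H40.BP.Bas

/-!
# Analytic isomorphisms: localisation and Laurent polynomials
-/

set_option autoImplicit false

open Polynomial

noncomputable section

namespace Pool.Agent.TH874.QPS

open BQ Pool.Agent.H40.BP

/-- analytic isomorphisms localise -/
theorem anPatch_loc {A R A' R' : Type} [CommRing A] [CommRing R] [CommRing A'] [CommRing R']
    (ι : A →+* R) (g : A) (α : A →+* A') (ρ : R →+* R') (ι' : A' →+* R') (S : Submonoid A)
    (h : AnPatch ι g) (hα : Function.Injective α) (hρ : Function.Injective ρ)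
    (hc : ∀ a, ι' (α a) = ρ (ι a)) (hu : ∀ s ∈ S, IsUnit (α s))
    (hA : ∀ z : A', ∃ s ∈ S, ∃ a, α s * z = α a)
    (hR : ∀ z : R', ∃ s ∈ S, ∃ r, ρ (ι s) * z = ρ r) : AnPatch ι' (α g) := by
  have hu' : ∀ s ∈ S, IsUnit (ρ (ι s)) := fun s hs => by
    rw [← hc]
    exact (hu s hs).map ι'
  refine ⟨?_, ?_, ?_, ?_⟩
  · rw [injective_iff_map_eq_zero]
    intro z hz
    obtain ⟨s, hs, a, ha⟩ := hA z
    have h1 : ρ (ι a) = 0 := by
      rw [← hc, ← ha, map_mul, hz, mul_zero]
    have h2 : ι a = 0 := hρ (by rw [h1, map_zero])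
    have h3 : a = 0 := h.inj (by rw [h2, map_zero])
    rw [h3, map_zero] at ha
    exact ((hu s hs).mul_right_eq_zero).1 ha
  · intro r hr
    obtain ⟨s, hs, a, ha⟩ := hR r
    have h1 : ρ (ι g * a) = 0 := by
      rw [map_mul, ← ha, ← hc g]
      calc ι' (α g) * (ρ (ι s) * r) = ρ (ι s) * (ι' (α g) * r) := by ring
        _ = 0 := by rw [hr, mul_zero]
    have h2 : ι g * a = 0 := hρ (by rw [h1, map_zero])
    rw [h.reg a h2, map_zero] at ha
    exact ((hu' s hs).mul_right_eq_zero).1 ha
  · intro z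
    obtain ⟨s, hs, r, hr⟩ := hR z
    obtain ⟨a, c, rfl⟩ := h.surj r
    obtain ⟨t, ht⟩ := hu s hs
    refine ⟨((t⁻¹ : A'ˣ) : A') * α a, ι' ((t⁻¹ : A'ˣ) : A') * ρ c, ?_⟩
    have h1 : ι' ((t⁻¹ : A'ˣ) : A') * ρ (ι s) = 1 := by
      rw [← hc, ← ht, ← map_mul, Units.inv_mul, map_one]
    calc z = (ι' ((t⁻¹ : A'ˣ) : A') * ρ (ι s)) * z := by rw [h1, one_mul]
      _ = ι' ((t⁻¹ : A'ˣ) : A') * (ρ (ι s) * z) := by ring
      _ = _ := by
        rw [hr, map_add, map_mul, map_mul, hc, hc]
        ring
  · intro x c hx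
    obtain ⟨s, hs, a, ha⟩ := hA x
    obtain ⟨t, ht, r, hr⟩ := hR c
    have h1 : ρ (ι (t * a)) = ρ (ι g * (ι s * r)) := by
      rw [map_mul, map_mul, map_mul, map_mul, ← hr, ← hc a, ← ha, map_mul, hx, hc, hc]
      ring
    obtain ⟨a', ha'⟩ := h.sat _ _ (hρ h1)
    obtain ⟨u, hu1⟩ := (hu s hs).mul (hu t ht)
    refine ⟨((u⁻¹ : A'ˣ) : A') * α a', ?_⟩
    have h2 : (u : A') * x = α g * α a' := by
      rw [hu1, ← map_mul α g a', ← ha', map_mul, ← ha]
      ring
    calc x = ((u⁻¹ : A'ˣ) : A') * ((u : A') * x) := by rw [← mul_assoc, Units.inv_mul, one_mul]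
      _ = _ := by
        rw [h2]
        ring

open LaurentPolynomial in
/-- `C[X] → C[X,1/X]` is an analytic isomorphism along polynomials with constant term one -/
theorem anPatch_laurent {C : Type} [CommRing C] (h : C[X]) (h0 : h.coeff 0 = 1) :
    AnPatch (Polynomial.toLaurent : C[X] →+* C[T;T⁻¹]) h := by
  obtain ⟨h1, hh1⟩ : ∃ h1 : C[X], h = 1 + X * h1 := by
    refine ⟨h.divX, ?_⟩
    have := Polynomial.X_mul_divX_add h
    rw [h0] at this
    rw [add_comm]
    simpa using this.symm
  have hcop : IsCoprime (X : C[X]) h := ⟨-h1, 1, by rw [hh1]; ring⟩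
  have hreg : ∀ r : C[X], h * r = 0 → r = 0 := by
    intro r hr
    ext n
    induction n using Nat.strong_induction_on with
    | _ n ih =>
      have h2 := congrArg (fun p => Polynomial.coeff p n) hr
      simp only [hh1, add_mul, one_mul, Polynomial.coeff_add, Polynomial.coeff_zero,
        mul_assoc] at h2
      rw [Polynomial.coeff_zero]
      rcases n with _ | n
      · rw [Polynomial.mul_coeff_zero, Polynomial.coeff_X_zero, zero_mul, add_zero] at h2
        exact h2
      · rw [Polynomial.coeff_X_mul, Polynomial.coeff_mul] at h2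
        rw [Finset.sum_eq_zero, add_zero] at h2
        · exact h2
        · intro x hx
          have h3 : x.2 < n + 1 := by
            have := Finset.HasAntidiagonal.mem_antidiagonal.1 hx
            omega
          rw [ih x.2 h3, Polynomial.coeff_zero, mul_zero]
  refine ⟨Polynomial.toLaurent_injective, ?_, ?_, ?_⟩
  · intro r hr
    obtain ⟨n, r0, hr0⟩ := LaurentPolynomial.exists_T_pow r
    have h2 : Polynomial.toLaurent (h * r0) = 0 := by
      rw [map_mul, hr0, ← mul_assoc, hr, zero_mul]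
    have h3 : h * r0 = 0 := Polynomial.toLaurent_injective (by rw [h2, map_zero])
    rw [hreg r0 h3, map_zero] at hr0
    exact ((LaurentPolynomial.isUnit_T (R := C) (n : ℤ)).mul_left_eq_zero).1 hr0.symm
  · have key : ∀ (n : ℕ) (f : C[X]), ∃ (a : C[X]) (c : C[T;T⁻¹]),
        Polynomial.toLaurent f * T (-n) = Polynomial.toLaurent a + Polynomial.toLaurent h * c := by
      intro n
      induction n with
      | zero =>
        intro f
        exact ⟨f, 0, by simp⟩
      | succ n ih =>
        intro f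
        obtain ⟨a, c, hac⟩ := ih f
        have hT : (T (-((n + 1 : ℕ) : ℤ)) : C[T;T⁻¹]) = T (-n) * T (-1) := by
          rw [← T_add]
          congr 1
          push_cast
          ring
        have h4 : (T (-1) : C[T;T⁻¹]) = Polynomial.toLaurent h * T (-1) -
            Polynomial.toLaurent h1 := by
          rw [hh1, map_add, map_one, map_mul, Polynomial.toLaurent_X, add_mul, one_mul,
            mul_comm (T 1 : C[T;T⁻¹]), mul_assoc, ← T_add]
          simp
        refine ⟨-(a * h1), c * T (-1) + Polynomial.toLaurent a * T (-1), ?_⟩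
        rw [hT, ← mul_assoc, hac, add_mul, map_neg, map_mul]
        linear_combination (Polynomial.toLaurent a) * h4
    intro r
    obtain ⟨n, r0, hr0⟩ := LaurentPolynomial.exists_T_pow r
    obtain ⟨a, c, hac⟩ := key n r0
    refine ⟨a, c, ?_⟩
    rw [← hac, hr0, mul_assoc, ← T_add]
    simp
  · intro a c hac
    obtain ⟨n, c0, hc0⟩ := LaurentPolynomial.exists_T_pow c
    have h2 : X ^ n * a = h * c0 := by
      apply Polynomial.toLaurent_injective
      rw [map_mul, map_mul, hc0, hac, Polynomial.toLaurent_X_pow]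
      ring
    have h3 : X ^ n ∣ c0 := (hcop.pow_left (m := n)).dvd_of_dvd_mul_left ⟨a, h2.symm⟩
    obtain ⟨c1, hc1⟩ := h3
    refine ⟨c1, ?_⟩
    have hXreg : ∀ p q : C[X], X ^ n * p = X ^ n * q → p = q := by
      intro p q hpq
      ext i
      have := congrArg (fun p => Polynomial.coeff p (i + n)) hpq
      simpa [Polynomial.coeff_X_pow_mul] using this
    apply hXreg
    rw [h2, hc1]
    ring

end Pool.Agent.TH874.QPS
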