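import Pool.Agent.TH874.QPS.Reg
import Pool.Agent.TH874.QPS.Gen
import Pool.Agent.H379R3.Reg
import Pool.Agent.H40.BP.QPAR

/-!
# Regular parameters of power series rings; the reduction for regular local rings
-/

set_option autoImplicit false

open Polynomial

noncomputable section

namespace Pool.Agent.TH874.QPS

open BQ Pool.Agent.H40.BP IsLocalRing

/-- power series with a unit linear coefficient are regular parameters -/
theorem param_ps (A : Type) [CommRing A] [IsLocalRing A] (r : PowerSeries A)
    (hr0 : ¬ IsUnit (PowerSeries.constantCoeff r)) (hr1 : IsUnit (PowerSeries.coeff 1 r)) :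
    r ∈ maximalIdeal (PowerSeries A) ∧ r ∉ maximalIdeal (PowerSeries A) ^ 2 := by
  have hm : ∀ f : PowerSeries A, f ∈ maximalIdeal (PowerSeries A) →
      PowerSeries.coeff 0 f ∈ maximalIdeal A := by
    intro f hf
    rw [mem_maximalIdeal, mem_nonunits_iff, PowerSeries.isUnit_iff_constantCoeff] at hf
    rw [mem_maximalIdeal, mem_nonunits_iff, PowerSeries.coeff_zero_eq_constantCoeff_apply]
    exact hf
  have key : ∀ f ∈ maximalIdeal (PowerSeries A) ^ 2, PowerSeries.coeff 1 f ∈ maximalIdeal A := by
    intro f hf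
    rw [pow_two] at hf
    refine Submodule.mul_induction_on hf ?_ ?_
    · intro a ha b hb
      rw [PowerSeries.coeff_mul]
      apply Ideal.sum_mem
      rintro ⟨j, k⟩ hjk
      have hjk := Finset.HasAntidiagonal.mem_antidiagonal.1 hjk
      simp only at hjk ⊢
      rcases Nat.eq_zero_or_pos j with rfl | hj
      · exact Ideal.mul_mem_right _ _ (hm a ha)
      · have hk0 : k = 0 := by omega
        subst hk0
        exact Ideal.mul_mem_left _ _ (hm b hb)
    · intro a b ha hb
      rw [map_add]
      exact Ideal.add_mem _ ha hb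
  refine ⟨?_, fun h => ?_⟩
  · rw [mem_maximalIdeal, mem_nonunits_iff, PowerSeries.isUnit_iff_constantCoeff]
    exact hr0
  · exact (mem_nonunits_iff.1 ((mem_maximalIdeal _).1 (key r h))) hr1

/-- the prime ideal generated by the maximal ideal of `W` -/
theorem exists_p (W : Type) [CommRing W] [IsLocalRing W] (n : ℕ) :
    ∃ p : Ideal (MvPowerSeries (Fin n) W), p.IsPrime ∧ p = ck n (maximalIdeal W) :=
  ⟨_, ck_prime n (maximalIdeal W), rfl⟩

/-- reduction of Quillen's question to the dimension of `W` -/
theorem dim_param (d : WithBot ℕ∞)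
    (h : ∀ (L : Type) [CommRing L] [IsRegularLocalRing L], ringKrullDim L = d →
      ∀ r : L, r ∈ maximalIdeal L → r ∉ maximalIdeal L ^ 2 → IdemFree (Localization.Away r))
    (W : Type) [CommRing W] [IsRegularLocalRing W] [IsAdicComplete (maximalIdeal W) W]
    (hW : ringKrullDim W = d) (n : ℕ) (b : W) (hb : b ∈ maximalIdeal W)
    (hb2 : b ∉ maximalIdeal W ^ 2) :
    IdemFree (Localization.Away (MvPowerSeries.C b : MvPowerSeries (Fin n) W)) := by
  have hdom : IsDomain W := Pool.Agent.H379R3.isDomain W
  have hRreg : IsRegularLocalRing (MvPowerSeries (Fin n) W) := t_RGP n W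
  obtain ⟨p, hp, hpk⟩ := exists_p W n
  obtain ⟨hL, hLd⟩ := reg_L W n p hpk
  obtain ⟨h1, h2⟩ := param_L W n p hpk b hb hb2
  have hb0 : b ≠ 0 := by
    rintro rfl
    exact hb2 (Ideal.zero_mem _)
  exact red_param W b hb0 n p hpk (h _ (hLd.trans hW) _ h1 h2)

/-- reduction of Bass-Quillen in one variable to the dimension of `W` -/
theorem dim_bq (d : WithBot ℕ∞)
    (h : ∀ (L : Type) [CommRing L] [IsRegularLocalRing L], ringKrullDim L = d → IdemFree L[X])
    (W : Type) [CommRing W] [IsRegularLocalRing W] [IsAdicComplete (maximalIdeal W) W]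
    (hW : ringKrullDim W = d) (n : ℕ) : IdemFree (MvPowerSeries (Fin n) W)[X] := by
  have hdom : IsDomain W := Pool.Agent.H379R3.isDomain W
  have hRreg : IsRegularLocalRing (MvPowerSeries (Fin n) W) := t_RGP n W
  obtain ⟨p, hp, hpk⟩ := exists_p W n
  obtain ⟨hL, hLd⟩ := reg_L W n p hpk
  exact red_bq W n p hpk (h _ (hLd.trans hW))

end Pool.Agent.TH874.QPS
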