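import Pool.Agent.TH874.QPS.Lau
import Pool.Agent.H40.BP.ONE
import Pool.Agent.H40.BP.AUTD
import Pool.Agent.H40.BP.CPL
import Pool.Agent.H40.BP.MULT
import Mathlib.RingTheory.Localization.Integral

/-!
# Reduction of the number of variables
-/

set_option autoImplicit false

open Polynomial

noncomputable section

namespace Pool.Agent.TH874.QPS

open BQ Pool.Agent.H40.BP IsLocalRing

section one

variable (B : Type) [CommRing B] (b : B)

/-- the inclusion `B[1/b][X] → B[[X]][1/b]` -/
def lb : (Localization.Away b)[X] →+* Localization.Away (PowerSeries.C b : PowerSeries B) :=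
  Polynomial.eval₂RingHom
    (IsLocalization.Away.lift (S := Localization.Away b) b
      (g := (algebraMap (PowerSeries B) (Localization.Away (PowerSeries.C b : PowerSeries B))).comp
        (PowerSeries.C (R := B)))
      (IsLocalization.Away.algebraMap_isUnit (PowerSeries.C b : PowerSeries B)))
    (algebraMap (PowerSeries B) (Localization.Away (PowerSeries.C b : PowerSeries B))
      PowerSeries.X)

theorem lb_map (f : B[X]) : lb B b (Polynomial.mapRingHom (algebraMap B (Localization.Away b)) f) =
    algebraMap (PowerSeries B) (Localization.Away (PowerSeries.C b : PowerSeries B))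
      (Polynomial.coeToPowerSeries.ringHom f) := by
  have h : (lb B b).comp (Polynomial.mapRingHom (algebraMap B (Localization.Away b))) =
      (algebraMap (PowerSeries B) (Localization.Away (PowerSeries.C b : PowerSeries B))).comp
        (Polynomial.coeToPowerSeries.ringHom) := by
    apply Polynomial.ringHom_ext
    · intro a
      rw [RingHom.comp_apply, RingHom.comp_apply, Polynomial.coe_mapRingHom, Polynomial.map_C, lb,
        Polynomial.coe_eval₂RingHom, Polynomial.eval₂_C, IsLocalization.Away.lift_eq,
        Polynomial.coeToPowerSeries.ringHom_apply, Polynomial.coe_C]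
      rfl
    · rw [RingHom.comp_apply, RingHom.comp_apply, Polynomial.coe_mapRingHom, Polynomial.map_X, lb,
        Polynomial.coe_eval₂RingHom, Polynomial.eval₂_X,
        Polynomial.coeToPowerSeries.ringHom_apply, Polynomial.coe_X]
  exact RingHom.congr_fun h f

theorem anPatch_lb [IsDomain B] (hb : b ≠ 0) (g : B[X])
    (h : AnPatch (Polynomial.coeToPowerSeries.ringHom : B[X] →+* PowerSeries B) g) :
    AnPatch (lb B b) (Polynomial.mapRingHom (algebraMap B (Localization.Away b)) g) := by
  have hbC : (PowerSeries.C b : PowerSeries B) ≠ 0 := by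
    intro h0
    apply hb
    have := congrArg PowerSeries.constantCoeff h0
    rwa [PowerSeries.constantCoeff_C, map_zero] at this
  refine anPatch_loc (Polynomial.coeToPowerSeries.ringHom : B[X] →+* PowerSeries B) g
    (Polynomial.mapRingHom (algebraMap B (Localization.Away b)))
    (algebraMap (PowerSeries B) (Localization.Away (PowerSeries.C b : PowerSeries B))) (lb B b)
    (Submonoid.powers (Polynomial.C b)) h ?_ ?_ (lb_map B b) ?_ ?_ ?_
  · rw [Polynomial.coe_mapRingHom]
    exact Polynomial.map_injective _ (IsLocalization.injective (Localization.Away b)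
      (powers_le_nonZeroDivisors_of_noZeroDivisors hb))
  · exact IsLocalization.injective _ (powers_le_nonZeroDivisors_of_noZeroDivisors hbC)
  · rintro s ⟨k, rfl⟩
    simp only [map_pow]
    apply IsUnit.pow
    rw [Polynomial.coe_mapRingHom, Polynomial.map_C]
    exact (IsLocalization.Away.algebraMap_isUnit b).map Polynomial.C
  · intro z
    obtain ⟨b', ⟨k, hk⟩, h1⟩ := IsLocalization.integerNormalization_spec (Submonoid.powers b) z
    refine ⟨Polynomial.C b ^ k, ⟨k, rfl⟩,
      IsLocalization.integerNormalization (Submonoid.powers b) z, ?_⟩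
    have hk' : b ^ k = b' := hk
    rw [Polynomial.coe_mapRingHom, h1, ← map_pow, hk', Polynomial.map_C,
      ← algebraMap_smul (Localization.Away b) b' z, Polynomial.smul_eq_C_mul]
  · intro z
    obtain ⟨⟨r, s⟩, hrs⟩ := IsLocalization.surj
      (Submonoid.powers (PowerSeries.C b : PowerSeries B)) z
    obtain ⟨k, hk⟩ := s.2
    refine ⟨Polynomial.C b ^ k, ⟨k, rfl⟩, r, ?_⟩
    rw [map_pow Polynomial.coeToPowerSeries.ringHom, Polynomial.coeToPowerSeries.ringHom_apply,
      Polynomial.coe_C]
    have hk' : (PowerSeries.C b : PowerSeries B) ^ k = s := hk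
    rw [hk', mul_comm]
    exact hrs

/-- removing a denominator with a unit coefficient, one variable -/
theorem red_one [IsDomain B] [IsLocalRing B] [IsAdicComplete (maximalIdeal B) B] (hb : b ≠ 0)
    (f : PowerSeries B) (hf : ∃ k, IsUnit (PowerSeries.coeff k f)) {n : ℕ}
    (E : Matrix (Fin n) (Fin n) (Localization.Away (PowerSeries.C b : PowerSeries B)))
    (hE : E * E = E)
    (h : SplitAt (algebraMap (PowerSeries B) (Localization.Away (PowerSeries.C b : PowerSeries B)) f)
      E) : Split E := by
  obtain ⟨g, u, hu, hfg, hg, hg1, hpat⟩ := t_WEI B f hf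
  have h1 : SplitAt (lb B b (Polynomial.mapRingHom (algebraMap B (Localization.Away b)) g)) E := by
    apply SplitAt.of_mul (u := algebraMap (PowerSeries B)
      (Localization.Away (PowerSeries.C b : PowerSeries B)) u) (hu.map _)
    rw [lb_map, ← map_mul]
    have h6 : f = Polynomial.coeToPowerSeries.ringHom g * u := hfg
    rwa [← h6]
  obtain ⟨n', E', hE', ⟨N, hN⟩, himp⟩ := t_PATCH _ _ _ _ (anPatch_lb B b hb g hpat) n E hE h1
  apply himp
  refine monic_split E' hE' _ ?_ ?_ hN
  · rw [Polynomial.coe_mapRingHom]
    exact (hg.map _).pow N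
  · rw [Polynomial.eval_pow, Polynomial.coe_mapRingHom]
    apply IsUnit.pow
    rw [← map_one (algebraMap B (Localization.Away b)), Polynomial.eval_map_apply]
    exact hg1.map _

end one

/-- an isomorphism of localisations -/
theorem away_equiv {R R' : Type} [CommRing R] [CommRing R'] (e : R ≃+* R') (s : R) (s' : R')
    (h : e s = s') : ∃ Θ : Localization.Away s ≃+* Localization.Away s',
      ∀ x, Θ (algebraMap R _ x) = algebraMap R' _ (e x) := by
  have h1 : Submonoid.map e.toMonoidHom (Submonoid.powers s) = Submonoid.powers s' := by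
    rw [Submonoid.map_powers]
    congr 1
  refine ⟨IsLocalization.ringEquivOfRingEquiv (Localization.Away s) (Localization.Away s') e h1,
    fun x => ?_⟩
  exact IsLocalization.ringEquivOfRingEquiv_eq h1 x

/-- removing a denominator with a unit coefficient, several variables -/
theorem red_mv (W : Type) [CommRing W] [IsDomain W] [IsLocalRing W] [IsNoetherianRing W]
    [IsAdicComplete (maximalIdeal W) W] (b : W) (hb : b ≠ 0) (r : ℕ)
    (f : MvPowerSeries (Fin r) W) (hf : ∃ ν, IsUnit (MvPowerSeries.coeff ν f)) {n : ℕ}
    (E : Matrix (Fin n) (Fin n) (Localization.Away (MvPowerSeries.C b : MvPowerSeries (Fin r) W)))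
    (hE : E * E = E)
    (h : SplitAt (algebraMap (MvPowerSeries (Fin r) W)
      (Localization.Away (MvPowerSeries.C b : MvPowerSeries (Fin r) W)) f) E) : Split E := by
  rcases r with _ | r
  · apply h.split
    apply IsUnit.map
    obtain ⟨ν, hν⟩ := hf
    rw [MvPowerSeries.isUnit_iff_constantCoeff]
    rwa [Subsingleton.elim ν 0, MvPowerSeries.coeff_zero_eq_constantCoeff_apply] at hν
  · obtain ⟨σ, k, hk, hσC, -, -⟩ := t_AUTD r W f hf
    have hcpl := t_CPL r W
    have hdom : IsDomain (MvPowerSeries (Fin r) W) := NoZeroDivisors.to_isDomain _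
    set e0 : MvPowerSeries (Fin (r + 1)) W ≃+* PowerSeries (MvPowerSeries (Fin r) W) :=
      (MvPowerSeries.finSuccEquiv W r).toRingEquiv with he0
    have hcoeff : ∀ (j : ℕ) (p : MvPowerSeries (Fin (r + 1)) W),
        MvPowerSeries.constantCoeff (PowerSeries.coeff j (e0 p)) =
          MvPowerSeries.coeff (Finsupp.single 0 j) p := by
      intro j p
      have h1 : MvPowerSeries.coeff 0 (PowerSeries.coeff j
          (MvPowerSeries.finSuccEquiv W r p)) =
          MvPowerSeries.coeff ((0 : Fin r →₀ ℕ).cons j) p :=
        MvPowerSeries.coeff_coeff_finSuccEquiv _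
      have h2 : (0 : Fin r →₀ ℕ).cons j = Finsupp.single 0 j := by
        ext i
        refine Fin.cases ?_ (fun j => ?_) i
        · simp
        · simp
      rw [h2, MvPowerSeries.coeff_zero_eq_constantCoeff_apply] at h1
      exact h1
    obtain ⟨Θ, hΘ⟩ := away_equiv (σ.trans e0) (MvPowerSeries.C b)
      (PowerSeries.C (MvPowerSeries.C b)) (by
        show e0 (σ (MvPowerSeries.C b)) = _
        rw [hσC, he0]
        exact MvPowerSeries.finSuccEquiv_C _)
    apply Split.of_equiv Θ
    apply red_one (MvPowerSeries (Fin r) W) (MvPowerSeries.C b) ?_ (e0 (σ f)) ⟨k, ?_⟩ _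
      (map_idem hE _)
    · have h1 := h.map (Θ : Localization.Away (MvPowerSeries.C b : MvPowerSeries (Fin (r + 1)) W)
        →+* Localization.Away (PowerSeries.C (MvPowerSeries.C b) :
          PowerSeries (MvPowerSeries (Fin r) W)))
      have h2 : (Θ : Localization.Away (MvPowerSeries.C b : MvPowerSeries (Fin (r + 1)) W)
        →+* Localization.Away (PowerSeries.C (MvPowerSeries.C b) :
          PowerSeries (MvPowerSeries (Fin r) W))) (algebraMap (MvPowerSeries (Fin (r + 1)) W)
        (Localization.Away (MvPowerSeries.C b : MvPowerSeries (Fin (r + 1)) W)) f) =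
          algebraMap _ _ (e0 (σ f)) := hΘ f
      rw [h2] at h1
      exact h1
    · intro h0
      apply hb
      have := congrArg MvPowerSeries.constantCoeff h0
      rwa [MvPowerSeries.constantCoeff_C, map_zero] at this
    · rw [MvPowerSeries.isUnit_iff_constantCoeff, hcoeff]
      exact hk

end Pool.Agent.TH874.QPS
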