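import Pool.Agent.TH874.QPS.Red
import Pool.Agent.H40.BP.Asm3

/-!
# Reduction of Quillen's question for `W[[X_1,...,X_n]]` to the dimension of `W`
-/

set_option autoImplicit false

open Polynomial

noncomputable section

namespace Pool.Agent.TH874.QPS

open BQ Pool.Agent.W394.BQN Pool.Agent.H40.BP IsLocalRing

/-- power series not all of whose coefficients are in the maximal ideal -/
theorem uc_of_ker {W : Type} [CommRing W] [IsLocalRing W] {n : ℕ}
    {f : MvPowerSeries (Fin n) W} (hf : f ∉ RingHom.ker (MvPowerSeries.map (σ := Fin n)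
      (residue W))) : ∃ ν, IsUnit (MvPowerSeries.coeff ν f) := by
  by_contra hcon
  push Not at hcon
  apply hf
  rw [RingHom.mem_ker]
  ext ν
  rw [MvPowerSeries.coeff_map, map_zero, residue_eq_zero_iff, mem_maximalIdeal, mem_nonunits_iff]
  exact hcon ν

theorem away_inj {L : Type} [CommRing L] [IsDomain L] (c : L) (hc : c ≠ 0) :
    Function.Injective (algebraMap L (Localization.Away c)) :=
  IsLocalization.injective _ (powers_le_nonZeroDivisors_of_noZeroDivisors hc)

/-- splitting over `L[1/c]`, `L` a localisation of `R`, gives splitting over `R[1/c]` up to a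
denominator -/
theorem away_loc_split {R L : Type} [CommRing R] [IsDomain R] [CommRing L] [IsDomain L]
    (ρ : R →+* L) (hρ : Function.Injective ρ) (M : Submonoid R)
    (hM : ∀ l : L, ∃ s ∈ M, ∃ r, ρ s * l = ρ r) (c : R) (hc : c ≠ 0)
    (h : IdemFree (Localization.Away (ρ c))) {m : ℕ}
    (E : Matrix (Fin m) (Fin m) (Localization.Away c)) (hE : E * E = E) :
    ∃ f ∈ M, SplitAt (algebraMap R (Localization.Away c) f) E := by
  have hcL : ρ c ≠ 0 := fun h0 => hc (hρ (by rw [h0, map_zero]))
  have hLinj : Function.Injective (algebraMap L (Localization.Away (ρ c))) := away_inj _ hcL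
  have hu : IsUnit (((algebraMap L (Localization.Away (ρ c))).comp ρ) c) :=
    IsLocalization.Away.algebraMap_isUnit (ρ c)
  let a : Localization.Away c →+* Localization.Away (ρ c) := IsLocalization.Away.lift c hu
  have ha : ∀ r, a (algebraMap R (Localization.Away c) r) =
      algebraMap L (Localization.Away (ρ c)) (ρ r) := fun r =>
    IsLocalization.Away.lift_eq _ _ _
  have hcu : IsUnit (algebraMap R (Localization.Away c) c) :=
    IsLocalization.Away.algebraMap_isUnit c
  have hsurj : ∀ z : Localization.Away c, ∃ (k : ℕ) (r : R),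
      algebraMap R (Localization.Away c) c ^ k * z = algebraMap R (Localization.Away c) r := by
    intro z
    obtain ⟨⟨r, s⟩, hrs⟩ := IsLocalization.surj (Submonoid.powers c) z
    obtain ⟨k, hk⟩ := s.2
    have hk' : c ^ k = s := hk
    refine ⟨k, r, ?_⟩
    rw [← map_pow, hk', mul_comm]
    exact hrs
  have hainj : Function.Injective a := by
    rw [injective_iff_map_eq_zero]
    intro z hz
    obtain ⟨k, r, hr⟩ := hsurj z
    have h1 : algebraMap L (Localization.Away (ρ c)) (ρ r) = 0 := by
      rw [← ha, ← hr, map_mul, hz, mul_zero]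
    have h2 : r = 0 := hρ (hLinj (by rw [h1, map_zero, map_zero]))
    rw [h2, map_zero] at hr
    exact ((hcu.pow k).mul_right_eq_zero).1 hr
  obtain ⟨s, U, V, h1, h2⟩ := h m (E.map a) (map_idem hE a)
  obtain ⟨d, hd, U', V', h3, h4⟩ := clear_split a hainj
    (M.map (algebraMap R (Localization.Away c))) (by
      intro z
      obtain ⟨⟨l, s⟩, hls⟩ := IsLocalization.surj (Submonoid.powers (ρ c)) z
      obtain ⟨k, hk⟩ := s.2
      have hk' : (ρ c) ^ k = s := hk
      obtain ⟨t, ht, r, hrt⟩ := hM l
      obtain ⟨v, hv⟩ := hcu.pow k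
      refine ⟨_, ⟨t, ht, rfl⟩, ((v⁻¹ : (Localization.Away c)ˣ) : Localization.Away c) *
        algebraMap R (Localization.Away c) r, ?_⟩
      have h6 : algebraMap L (Localization.Away (ρ c)) (ρ c) ^ k * z =
          algebraMap L (Localization.Away (ρ c)) l := by
        rw [← map_pow, hk', mul_comm]
        exact hls
      have h5 : a (v : Localization.Away c) * (a (algebraMap R (Localization.Away c) t) * z) =
          a (algebraMap R (Localization.Away c) r) := by
        rw [hv, map_pow, ha, ha, ha, ← hrt, map_mul, ← h6]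
        ring
      have h7 : a ((v⁻¹ : (Localization.Away c)ˣ) : Localization.Away c) *
          a (v : Localization.Away c) = 1 := by
        rw [← map_mul, Units.inv_mul, map_one]
      rw [map_mul, ← h5, ← mul_assoc, h7, one_mul]) E U V h1 h2
  obtain ⟨f, hf, rfl⟩ := hd
  exact ⟨f, hf, s, U', V', h3, h4⟩

/-- Quillen's question for `(W[[X_1,...,X_n]], b)`, `b` in `W` -/
theorem red_param (W : Type) [CommRing W] [IsDomain W] [IsLocalRing W] [IsNoetherianRing W]
    [IsAdicComplete (maximalIdeal W) W] (b : W) (hb : b ≠ 0) (n : ℕ)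
    (p : Ideal (MvPowerSeries (Fin n) W)) [p.IsPrime]
    (hp : p = RingHom.ker (MvPowerSeries.map (σ := Fin n) (residue W)))
    (h : IdemFree (Localization.Away (algebraMap (MvPowerSeries (Fin n) W)
      (Localization.AtPrime p) (MvPowerSeries.C b)))) :
    IdemFree (Localization.Away (MvPowerSeries.C b : MvPowerSeries (Fin n) W)) := by
  intro m E hE
  have hdom : IsDomain (MvPowerSeries (Fin n) W) := NoZeroDivisors.to_isDomain _
  have hc0 : (MvPowerSeries.C b : MvPowerSeries (Fin n) W) ≠ 0 := by
    intro h0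
    apply hb
    have := congrArg MvPowerSeries.constantCoeff h0
    rwa [MvPowerSeries.constantCoeff_C, map_zero] at this
  have hdomL : IsDomain (Localization.AtPrime p) :=
    IsLocalization.isDomain_localization p.primeCompl_le_nonZeroDivisors
  obtain ⟨f, hf, hs⟩ := away_loc_split (algebraMap (MvPowerSeries (Fin n) W)
    (Localization.AtPrime p)) (IsLocalization.injective _ p.primeCompl_le_nonZeroDivisors)
    p.primeCompl (by
      intro z
      obtain ⟨⟨r, t⟩, hrt⟩ := IsLocalization.surj p.primeCompl z
      refine ⟨t.1, t.2, r, ?_⟩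
      rw [mul_comm]
      exact hrt) _ hc0 h E hE
  have hf' : f ∉ p := hf
  rw [hp] at hf'
  exact red_mv W b hb n f (uc_of_ker hf') E hE hs

/-- Bass-Quillen in one variable for `W[[X_1,...,X_n]]` -/
theorem red_bq (W : Type) [CommRing W] [IsDomain W] [IsLocalRing W] [IsNoetherianRing W]
    [IsAdicComplete (maximalIdeal W) W] (n : ℕ)
    (p : Ideal (MvPowerSeries (Fin n) W)) [p.IsPrime]
    (hp : p = RingHom.ker (MvPowerSeries.map (σ := Fin n) (residue W)))
    (h : IdemFree (Localization.AtPrime p)[X]) :
    IdemFree (MvPowerSeries (Fin n) W)[X] := by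
  have hdom : IsDomain (MvPowerSeries (Fin n) W) := NoZeroDivisors.to_isDomain _
  have h1 : IdemFree (MvPolynomial (Fin 1) (Localization.AtPrime p)) :=
    IdemFree.of_equiv (MvPolynomial.uniqueAlgEquiv _ (Fin 1)).symm.toRingEquiv h
  apply IdemFree.of_equiv (MvPolynomial.uniqueAlgEquiv _ (Fin 1)).toRingEquiv
  intro m E hE
  obtain ⟨f, hf, hs⟩ := splitAt_of_loc (algebraMap (MvPowerSeries (Fin n) W)
    (Localization.AtPrime p)) (IsLocalization.injective _ p.primeCompl_le_nonZeroDivisors)
    p.primeCompl (by
      intro z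
      obtain ⟨⟨r, t⟩, hrt⟩ := IsLocalization.surj p.primeCompl z
      refine ⟨t.1, t.2, r, ?_⟩
      rw [mul_comm]
      exact hrt) 1 E (h1 m _ (map_idem hE _))
  have hf' : f ∉ p := hf
  rw [hp] at hf'
  exact c_MULT n W f (uc_of_ker hf') 1 m E hE hs

end Pool.Agent.TH874.QPS
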