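import Pool.Agent.TH874.QPS.Red2
import Mathlib.RingTheory.RegularLocalRing.Defs
import Mathlib.RingTheory.Ideal.KrullsHeightTheorem

/-!
# The ring `W[[X_1,...,X_n]]` localised at the ideal generated by the maximal ideal of `W`
-/

set_option autoImplicit false

noncomputable section

namespace Pool.Agent.TH874.QPS

open IsLocalRing

theorem mem_map_of_coeff {W : Type} [CommRing W] {n : ℕ} (I : Ideal W) (hI : I.FG)
    (f : MvPowerSeries (Fin n) W) (h : ∀ ν, MvPowerSeries.coeff ν f ∈ I) :
    f ∈ I.map (MvPowerSeries.C (σ := Fin n) (R := W)) := by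
  obtain ⟨d, x, hx⟩ := Submodule.fg_iff_exists_fin_generating_family.1 hI
  have h1 : ∀ ν, ∃ a : Fin d → W, ∑ i, a i * x i = MvPowerSeries.coeff ν f := by
    intro ν
    have h2 := h ν
    rw [← hx] at h2
    exact Ideal.mem_span_range_iff_exists_fun.1 h2
  choose a ha using h1
  let g : Fin d → MvPowerSeries (Fin n) W := fun i ν => a ν i
  have hg : ∀ i ν, MvPowerSeries.coeff ν (g i) = a ν i := fun i ν => rfl
  have h3 : f = ∑ i, g i * MvPowerSeries.C (x i) := by
    ext ν
    rw [map_sum, ← ha ν]
    apply Finset.sum_congr rfl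
    intro i _
    rw [MvPowerSeries.coeff_mul_C, hg]
  rw [h3]
  apply Ideal.sum_mem
  intro i _
  apply Ideal.mul_mem_left
  apply Ideal.mem_map_of_mem
  rw [← hx]
  exact Ideal.subset_span ⟨i, rfl⟩

/-- power series with coefficients in `q` -/
def ck {W : Type} [CommRing W] (n : ℕ) (q : Ideal W) : Ideal (MvPowerSeries (Fin n) W) :=
  RingHom.ker (MvPowerSeries.map (σ := Fin n) (Ideal.Quotient.mk q))

theorem mem_ck {W : Type} [CommRing W] {n : ℕ} {q : Ideal W} {f : MvPowerSeries (Fin n) W} :
    f ∈ ck n q ↔ ∀ ν, MvPowerSeries.coeff ν f ∈ q := by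
  rw [ck, RingHom.mem_ker, MvPowerSeries.ext_iff]
  apply forall_congr'
  intro ν
  rw [MvPowerSeries.coeff_map, map_zero, Ideal.Quotient.eq_zero_iff_mem]

theorem ck_prime {W : Type} [CommRing W] (n : ℕ) (q : Ideal W) [hq : q.IsPrime] :
    (ck n q).IsPrime := by
  have h1 : IsDomain (W ⧸ q) := (Ideal.Quotient.isDomain_iff_prime q).2 hq
  have h2 : IsDomain (MvPowerSeries (Fin n) (W ⧸ q)) := NoZeroDivisors.to_isDomain _
  exact RingHom.ker_isPrime _

theorem ck_strictMono {W : Type} [CommRing W] (n : ℕ) :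
    StrictMono (fun q : PrimeSpectrum W => (⟨ck n q.asIdeal, by
      have := q.isPrime
      exact ck_prime n q.asIdeal⟩ : PrimeSpectrum (MvPowerSeries (Fin n) W))) := by
  intro q q' h
  have h1 : q.asIdeal < q'.asIdeal := h
  show ck n q.asIdeal < ck n q'.asIdeal
  refine lt_of_le_of_ne ?_ ?_
  · intro f hf
    rw [mem_ck] at hf ⊢
    exact fun ν => h1.le (hf ν)
  · intro heq
    obtain ⟨a, ha, ha'⟩ := Set.exists_of_ssubset h1
    have h2 : MvPowerSeries.C a ∈ ck n q'.asIdeal := by
      rw [mem_ck]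
      intro ν
      classical
      rw [MvPowerSeries.coeff_C]
      split_ifs
      · exact ha
      · exact Ideal.zero_mem _
    rw [← heq, mem_ck] at h2
    have h3 := h2 0
    rw [MvPowerSeries.coeff_zero_C] at h3
    exact ha' h3

theorem height_ck {W : Type} [CommRing W] [IsLocalRing W] (n : ℕ) :
    ringKrullDim W ≤ ((ck n (maximalIdeal W)).height : WithBot ℕ∞) := by
  have h := Order.height_le_height_apply_of_strictMono _ (ck_strictMono (W := W) n)
    (⟨maximalIdeal W, inferInstance⟩ : PrimeSpectrum W)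
  rw [← PrimeSpectrum.height_eq_orderHeight, ← PrimeSpectrum.height_eq_orderHeight] at h
  rw [← IsLocalRing.maximalIdeal_height_eq_ringKrullDim]
  exact_mod_cast h

theorem ck_eq_map {W : Type} [CommRing W] [IsNoetherianRing W] (n : ℕ) (q : Ideal W) :
    ck n q = q.map (MvPowerSeries.C (σ := Fin n) (R := W)) := by
  apply le_antisymm
  · intro f hf
    exact mem_map_of_coeff q (IsNoetherian.noetherian q) f (mem_ck.1 hf)
  · rw [Ideal.map_le_iff_le_comap]
    intro a ha
    rw [Ideal.mem_comap, mem_ck]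
    intro ν
    classical
    rw [MvPowerSeries.coeff_C]
    split_ifs
    · exact ha
    · exact Ideal.zero_mem _

theorem reg_L (W : Type) [CommRing W] [IsRegularLocalRing W] (n : ℕ)
    [IsNoetherianRing (MvPowerSeries (Fin n) W)] (p : Ideal (MvPowerSeries (Fin n) W))
    [p.IsPrime] (hp : p = ck n (maximalIdeal W)) :
    IsRegularLocalRing (Localization.AtPrime p) ∧
      ringKrullDim (Localization.AtPrime p) = ringKrullDim W := by
  have h1 : maximalIdeal (Localization.AtPrime p) = (maximalIdeal W).map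
      ((algebraMap (MvPowerSeries (Fin n) W) (Localization.AtPrime p)).comp
        (MvPowerSeries.C (σ := Fin n) (R := W))) := by
    rw [← Ideal.map_map, ← ck_eq_map, ← hp, IsLocalization.AtPrime.map_eq_maximalIdeal]
  have h2 : (maximalIdeal (Localization.AtPrime p)).spanFinrank ≤
      (maximalIdeal W).spanFinrank := by
    rw [h1]
    exact Ideal.spanFinrank_map_le_of_fg _ (IsNoetherian.noetherian _)
  have h3 : ((maximalIdeal W).spanFinrank : WithBot ℕ∞) = ringKrullDim W :=
    IsRegularLocalRing.spanFinrank_maximalIdeal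
  have h4 : ringKrullDim W ≤ ringKrullDim (Localization.AtPrime p) := by
    rw [IsLocalization.AtPrime.ringKrullDim_eq_height p (Localization.AtPrime p), hp]
    exact height_ck n
  have h2' : ((maximalIdeal (Localization.AtPrime p)).spanFinrank : WithBot ℕ∞) ≤
      ringKrullDim W := by
    rw [← h3]
    exact_mod_cast h2
  refine ⟨IsRegularLocalRing.of_spanFinrank_maximalIdeal_le _ (h2'.trans h4), ?_⟩
  exact le_antisymm ((ringKrullDim_le_spanFinrank_maximalIdeal _).trans h2') h4

theorem param_L (W : Type) [CommRing W] [IsLocalRing W] [IsNoetherianRing W] (n : ℕ)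
    (p : Ideal (MvPowerSeries (Fin n) W))
    [p.IsPrime] (hp : p = ck n (maximalIdeal W)) (b : W) (hb : b ∈ maximalIdeal W)
    (hb2 : b ∉ maximalIdeal W ^ 2) :
    algebraMap (MvPowerSeries (Fin n) W) (Localization.AtPrime p) (MvPowerSeries.C b) ∈
      maximalIdeal (Localization.AtPrime p) ∧
    algebraMap (MvPowerSeries (Fin n) W) (Localization.AtPrime p) (MvPowerSeries.C b) ∉
      maximalIdeal (Localization.AtPrime p) ^ 2 := by
  have hCb : MvPowerSeries.C b ∈ p := by
    rw [hp, ck_eq_map]
    exact Ideal.mem_map_of_mem _ hb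
  constructor
  · rw [← IsLocalization.AtPrime.map_eq_maximalIdeal p]
    exact Ideal.mem_map_of_mem _ hCb
  · intro h
    rw [← IsLocalization.AtPrime.map_eq_maximalIdeal p, ← Ideal.map_pow,
      IsLocalization.algebraMap_mem_map_algebraMap_iff p.primeCompl] at h
    obtain ⟨s, hs, h1⟩ := h
    have hs' : s ∉ p := hs
    rw [hp, mem_ck] at hs'
    push Not at hs'
    obtain ⟨ν, hν⟩ := hs'
    have hu : IsUnit (MvPowerSeries.coeff ν s) := by
      by_contra hcon
      exact hν ((mem_maximalIdeal _).2 hcon)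
    rw [hp, ck_eq_map, ← Ideal.map_pow, ← ck_eq_map, mem_ck] at h1
    have h2 := h1 ν
    rw [MvPowerSeries.coeff_mul_C] at h2
    exact hb2 ((Ideal.unit_mul_mem_iff_mem _ hu).1 h2)

end Pool.Agent.TH874.QPS
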